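import Mathlib

set_option autoImplicit false

namespace Pool.Agent.Lib.MP_2baa92_co.DistinctLinear

/-- `Phi n k a`: the number of permutations `π` of the `k` indices for which the elements
`a (π 1) + 1, ..., a (π k) + k` of `ZMod n` are pairwise distinct (indices are `0, ..., k - 1`
in Lean, so the summand at index `i` is `i + 1`). -/
noncomputable def Phi (n k : ℕ) (a : Fin k → ZMod n) : ℕ :=
  Nat.card {π : Equiv.Perm (Fin k) //
    Function.Injective fun i : Fin k => a (π i) + (((i : ℕ) + 1 : ℕ) : ZMod n)}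

section switching

variable {n k : ℕ}

/-- the column of the row `r` under the placement `g` (rows to tokens), where the last row is
put at height `e` -/
def colE (b : Fin (k + 1) → ZMod n) (e : ZMod n) (g : Equiv.Perm (Fin (k + 1)))
    (r : Fin (k + 1)) : ZMod n :=
  b (g r) + (if r = Fin.last k then e else ((r : ℕ) : ZMod n))

theorem colE_last (b : Fin (k + 1) → ZMod n) (e : ZMod n) (g : Equiv.Perm (Fin (k + 1))) :
    colE b e g (Fin.last k) = b (g (Fin.last k)) + e := by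
  simp [colE]

theorem colE_ne (b : Fin (k + 1) → ZMod n) (e : ZMod n) (g : Equiv.Perm (Fin (k + 1)))
    {r : Fin (k + 1)} (h : r ≠ Fin.last k) : colE b e g r = b (g r) + ((r : ℕ) : ZMod n) := by
  simp [colE, h]

open Classical in
/-- valid placements with the last row at height `e` -/
noncomputable def T (b : Fin (k + 1) → ZMod n) (e : ZMod n) :
    Finset (Equiv.Perm (Fin (k + 1))) :=
  Finset.univ.filter fun g => Function.Injective (colE b e g)

theorem mem_T {b : Fin (k + 1) → ZMod n} {e : ZMod n} {g : Equiv.Perm (Fin (k + 1))} :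
    g ∈ T b e ↔ Function.Injective (colE b e g) := by
  simp [T]

open Classical in
/-- hand states with hand `z` -/
noncomputable def Om (b : Fin (k + 1) → ZMod n) (z : Fin (k + 1)) :
    Finset (Equiv.Perm (Fin (k + 1))) :=
  Finset.univ.filter fun g => g (Fin.last k) = z ∧
    ∀ r r', r ≠ Fin.last k → r' ≠ Fin.last k →
      b (g r) + ((r : ℕ) : ZMod n) = b (g r') + ((r' : ℕ) : ZMod n) → r = r'

theorem mem_Om {b : Fin (k + 1) → ZMod n} {z : Fin (k + 1)} {g : Equiv.Perm (Fin (k + 1))} :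
    g ∈ Om b z ↔ g (Fin.last k) = z ∧
    ∀ r r', r ≠ Fin.last k → r' ≠ Fin.last k →
      b (g r) + ((r : ℕ) : ZMod n) = b (g r') + ((r' : ℕ) : ZMod n) → r = r' := by
  simp [Om]

theorem row_inj (hn : k < n) {r r' : Fin (k + 1)}
    (h : ((r : ℕ) : ZMod n) = ((r' : ℕ) : ZMod n)) : r = r' := by
  apply Fin.ext
  have h1 := (ZMod.natCast_eq_natCast_iff' _ _ _).1 h
  rwa [Nat.mod_eq_of_lt (lt_of_le_of_lt (Nat.lt_succ_iff.1 r.2) hn),
    Nat.mod_eq_of_lt (lt_of_le_of_lt (Nat.lt_succ_iff.1 r'.2) hn)] at h1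

/-- a placement of the tokens other than `z`, together with `z` on the last row -/
def lift (z : Fin (k + 1)) (π : Equiv.Perm (Fin k)) : Equiv.Perm (Fin (k + 1)) :=
  finSuccEquivLast.trans ((Equiv.optionCongr π).trans (finSuccEquiv' z).symm)

theorem lift_last (z : Fin (k + 1)) (π : Equiv.Perm (Fin k)) : lift z π (Fin.last k) = z := by
  simp [lift]

theorem lift_castSucc (z : Fin (k + 1)) (π : Equiv.Perm (Fin k)) (i : Fin k) :
    lift z π i.castSucc = z.succAbove (π i) := by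
  simp [lift]

theorem Phi_le_Om (b : Fin (k + 1) → ZMod n) (z : Fin (k + 1)) :
    Phi n k (b ∘ z.succAbove) ≤ (Om b z).card := by
  classical
  rw [Phi, Nat.card_eq_fintype_card, Fintype.card_subtype]
  refine Finset.card_le_card_of_injOn (lift z) ?_ ?_
  · intro π hπ
    have hπ := (Finset.mem_filter.1 (Finset.mem_coe.1 hπ)).2
    apply Finset.mem_coe.2
    rw [mem_Om]
    refine ⟨lift_last z π, ?_⟩
    intro r r' hr hr' h
    obtain ⟨i, rfl⟩ := Fin.exists_castSucc_eq.2 hr
    obtain ⟨i', rfl⟩ := Fin.exists_castSucc_eq.2 hr'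
    rw [lift_castSucc, lift_castSucc] at h
    congr 1
    apply hπ
    simp only [Function.comp, Nat.cast_add, Nat.cast_one]
    simp only [Fin.val_castSucc] at h
    rw [← add_assoc, ← add_assoc, h]
  · intro π _ π' _ h
    ext i
    congr 1
    apply Fin.succAbove_right_injective (p := z)
    rw [← lift_castSucc, ← lift_castSucc, h]

theorem T_top (b : Fin (k + 1) → ZMod n) : (T b (k : ZMod n)).card = Phi n (k + 1) b := by
  classical
  rw [Phi, Nat.card_eq_fintype_card, Fintype.card_subtype, T]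
  congr 1
  apply Finset.filter_congr
  intro π _
  have h1 : (fun i : Fin (k + 1) => b (π i) + (((i : ℕ) + 1 : ℕ) : ZMod n)) =
      (fun x => x + 1) ∘ colE b (k : ZMod n) π := by
    funext i
    by_cases hi : i = Fin.last k
    · subst hi
      simp [colE, add_assoc]
    · simp [colE, hi, add_assoc]
  rw [h1]
  exact ((add_left_injective (1 : ZMod n)).of_comp_iff _).symm

theorem T_bot (b : Fin (k + 1) → ZMod n) : (T b (-1)).card = Phi n (k + 1) b := by
  classical
  rw [Phi, Nat.card_eq_fintype_card, Fintype.card_subtype]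
  set σ : Equiv.Perm (Fin (k + 1)) := (finRotate (k + 1))⁻¹ with hσ
  have hσ0 : σ 0 = Fin.last k := by
    rw [hσ, Equiv.Perm.inv_eq_iff_eq, finRotate_last]
  have hσs : ∀ i : Fin k, σ i.succ = i.castSucc := by
    intro i
    rw [hσ, Equiv.Perm.inv_eq_iff_eq]
    apply Fin.ext
    rw [coe_finRotate_of_ne_last (Fin.castSucc_lt_last i).ne]
    simp
  refine Finset.card_bij (fun h _ => h * σ) ?_ ?_ ?_
  · intro h hh
    rw [mem_T] at hh
    rw [Finset.mem_filter]
    refine ⟨Finset.mem_univ _, ?_⟩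
    have h1 : (fun i : Fin (k + 1) => b ((h * σ) i) + (((i : ℕ) + 1 : ℕ) : ZMod n)) =
        (fun x => x + 2) ∘ colE b (-1) h ∘ σ := by
      funext i
      induction i using Fin.cases with
      | zero =>
        simp only [Function.comp, Equiv.Perm.mul_apply, hσ0, colE_last]
        push_cast
        simp
        ring
      | succ i =>
        simp only [Function.comp, Equiv.Perm.mul_apply, hσs,
          colE_ne b (-1) h (Fin.castSucc_lt_last i).ne]
        push_cast
        simp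
        ring
    rw [h1]
    exact ((add_left_injective (2 : ZMod n)).comp hh).comp σ.injective
  · intro h _ h' _ hh
    exact mul_right_cancel hh
  · intro π hπ
    refine ⟨π * σ⁻¹, ?_, by simp⟩
    rw [mem_T]
    have hπ := (Finset.mem_filter.1 hπ).2
    have h1 : (fun x => x + 2) ∘ colE b (-1) (π * σ⁻¹) =
        (fun i : Fin (k + 1) => b (π i) + (((i : ℕ) + 1 : ℕ) : ZMod n)) ∘ (σ⁻¹ : Equiv.Perm _) := by
      have hinv : ∀ x, (σ⁻¹ : Equiv.Perm _) (σ x) = x := fun x => σ.symm_apply_apply x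
      funext r
      obtain ⟨i, rfl⟩ := σ.surjective r
      simp only [Function.comp, hinv]
      induction i using Fin.cases with
      | zero =>
        rw [hσ0, colE_last, Equiv.Perm.mul_apply, ← hσ0, hinv]
        push_cast
        simp
        ring
      | succ i =>
        rw [hσs, colE_ne b (-1) _ (Fin.castSucc_lt_last i).ne, Equiv.Perm.mul_apply, ← hσs, hinv,
          hσs]
        push_cast
        simp
        ring
    have h2 : Function.Injective ((fun x : ZMod n => x + 2) ∘ colE b (-1) (π * σ⁻¹)) := by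
      rw [h1]
      exact hπ.comp (σ⁻¹ : Equiv.Perm _).injective
    exact Function.Injective.of_comp h2

/-- the labels of `x` and `t` differ by at most `k` -/
def Near (b : Fin (k + 1) → ZMod n) (x t : Fin (k + 1)) : Prop :=
  ∃ d : ℤ, d.natAbs ≤ k ∧ b t = b x + (d : ZMod n)

open Classical in
/-- the tokens other than `x` with label near the one of `x` -/
noncomputable def Nr (b : Fin (k + 1) → ZMod n) (x : Fin (k + 1)) : Finset (Fin (k + 1)) :=
  Finset.univ.filter fun t => t ≠ x ∧ Near b x t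

theorem mem_Nr {b : Fin (k + 1) → ZMod n} {x t : Fin (k + 1)} :
    t ∈ Nr b x ↔ t ≠ x ∧ Near b x t := by
  simp [Nr]

theorem near_of_eq {b : Fin (k + 1) → ZMod n} {x t r r' : Fin (k + 1)}
    (h : b x + ((r : ℕ) : ZMod n) = b t + ((r' : ℕ) : ZMod n)) : Near b x t := by
  refine ⟨(r : ℤ) - (r' : ℤ), ?_, ?_⟩
  · have h1 := r.2
    have h2 := r'.2
    omega
  · push_cast
    linear_combination -h

/-- the rows other than the last one -/
def Rw (k : ℕ) : Finset (Fin (k + 1)) := Finset.univ.erase (Fin.last k)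

theorem mem_Rw {r : Fin (k + 1)} : r ∈ Rw k ↔ r ≠ Fin.last k := by
  simp [Rw]

theorem card_Rw : (Rw k).card = k := by
  rw [Rw, Finset.card_erase_of_mem (Finset.mem_univ _), Finset.card_univ, Fintype.card_fin]
  rfl

open Classical in
/-- rows whose token is free at height `e` -/
noncomputable def U (b : Fin (k + 1) → ZMod n) (e : ZMod n) (g : Equiv.Perm (Fin (k + 1))) :
    Finset (Fin (k + 1)) :=
  (Rw k).filter fun i => ∀ r ∈ Rw k, b (g r) + ((r : ℕ) : ZMod n) ≠ b (g i) + e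

open Classical in
/-- rows at which `x` does not fit (a column of another row is hit) -/
noncomputable def NF (b : Fin (k + 1) → ZMod n) (g : Equiv.Perm (Fin (k + 1)))
    (x : Fin (k + 1)) : Finset (Fin (k + 1)) :=
  (Rw k).filter fun i => ∃ r ∈ Rw k, g r ≠ x ∧
    b (g r) + ((r : ℕ) : ZMod n) = b x + ((i : ℕ) : ZMod n)

theorem card_NF (hn : k < n) (b : Fin (k + 1) → ZMod n) (g : Equiv.Perm (Fin (k + 1)))
    (x : Fin (k + 1)) : (NF b g x).card ≤ (Nr b x).card := by
  classical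
  have h : ∀ i ∈ NF b g x, ∃ r, g r ∈ Nr b x ∧
      b (g r) + ((r : ℕ) : ZMod n) = b x + ((i : ℕ) : ZMod n) := by
    intro i hi
    obtain ⟨-, r, -, hrx, hr⟩ := Finset.mem_filter.1 hi
    exact ⟨r, mem_Nr.2 ⟨hrx, near_of_eq hr.symm⟩, hr⟩
  choose! f hf using h
  refine Finset.card_le_card_of_injOn (fun i => g (f i)) (fun i hi => (hf i hi).1) ?_
  intro i hi i' hi' h
  have h1 := (hf i hi).2
  have h2 := (hf i' hi').2
  have h3 : f i = f i' := g.injective h
  rw [h3] at h1
  exact row_inj hn (add_left_cancel (h1.symm.trans h2))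

open Classical in
/-- the rows `i` for which the end move succeeds -/
noncomputable def Mv (b : Fin (k + 1) → ZMod n) (e : ZMod n) (g : Equiv.Perm (Fin (k + 1))) :
    Finset (Fin (k + 1)) :=
  (Rw k).filter fun i => g * Equiv.swap (Fin.last k) i ∈ T b e

/-- height `e` is an end: no row has height `e`, and a row and `e` differ by at most `k` -/
def IsEnd (n k : ℕ) (e : ZMod n) : Prop :=
  (∀ r ∈ Rw k, ((r : ℕ) : ZMod n) ≠ e) ∧
  ∀ r ∈ Rw k, ∃ d : ℤ, d.natAbs ≤ k ∧ ((r : ℕ) : ZMod n) - e = (d : ZMod n)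

theorem isEnd_top (hn : k < n) : IsEnd n k (k : ZMod n) := by
  refine ⟨fun r hr h => ?_, fun r hr => ?_⟩
  · rw [mem_Rw] at hr
    apply hr
    apply row_inj hn
    rw [h, Fin.val_last]
  · refine ⟨(r : ℤ) - k, ?_, by push_cast; ring⟩
    have := r.2
    omega

theorem isEnd_bot (hn : k < n) : IsEnd n k (-1 : ZMod n) := by
  refine ⟨fun r hr h => ?_, fun r hr => ?_⟩
  · rw [mem_Rw] at hr
    have h0 : (((r : ℕ) + 1 : ℕ) : ZMod n) = 0 := by
      push_cast
      rw [h]
      ring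
    rw [ZMod.natCast_eq_zero_iff] at h0
    have h1 := Nat.le_of_dvd (by omega) h0
    have h2 := Fin.lt_last_iff_ne_last.2 hr
    have h3 : (r : ℕ) < k := h2
    omega
  · refine ⟨(r : ℤ) + 1, ?_, by push_cast; ring⟩
    rw [mem_Rw] at hr
    have h2 := Fin.lt_last_iff_ne_last.2 hr
    have h3 : (r : ℕ) < k := h2
    omega

theorem end_move {b : Fin (k + 1) → ZMod n} {e : ZMod n} {z : Fin (k + 1)} {g : Equiv.Perm (Fin (k + 1))} (hg : g ∈ Om b z) {i : Fin (k + 1)}
    (hi : i ∈ U b e g) (h2 : ∀ r ∈ Rw k, r ≠ i → b (g r) + ((r : ℕ) : ZMod n) ≠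
      b z + ((i : ℕ) : ZMod n)) (h3 : b (g i) + e ≠ b z + ((i : ℕ) : ZMod n)) :
    i ∈ Mv b e g := by
  classical
  obtain ⟨hgz, hinj⟩ := mem_Om.1 hg
  obtain ⟨hiR, hU⟩ := Finset.mem_filter.1 hi
  rw [Mv, Finset.mem_filter]
  refine ⟨hiR, ?_⟩
  have hil := mem_Rw.1 hiR
  rw [mem_T]
  have c1 : colE b e (g * Equiv.swap (Fin.last k) i) (Fin.last k) = b (g i) + e := by
    rw [colE_last, Equiv.Perm.mul_apply, Equiv.swap_apply_left]
  have c2 : colE b e (g * Equiv.swap (Fin.last k) i) i = b z + ((i : ℕ) : ZMod n) := by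
    rw [colE_ne _ _ _ hil, Equiv.Perm.mul_apply, Equiv.swap_apply_right, hgz]
  have c3 : ∀ r, r ≠ Fin.last k → r ≠ i →
      colE b e (g * Equiv.swap (Fin.last k) i) r = b (g r) + ((r : ℕ) : ZMod n) := by
    intro r hr hri
    rw [colE_ne _ _ _ hr, Equiv.Perm.mul_apply, Equiv.swap_apply_of_ne_of_ne hr hri]
  intro r r' h
  by_cases hr : r = Fin.last k
  · subst hr
    by_cases hr' : r' = Fin.last k
    · exact hr'.symm
    · by_cases hi' : r' = i
      · subst hi'
        rw [c1, c2] at h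
        exact absurd h h3
      · rw [c1, c3 r' hr' hi'] at h
        exact absurd h.symm (hU r' (mem_Rw.2 hr'))
  · by_cases hri : r = i
    · subst hri
      by_cases hr' : r' = Fin.last k
      · subst hr'
        rw [c1, c2] at h
        exact absurd h.symm h3
      · by_cases hi' : r' = r
        · exact hi'.symm
        · rw [c2, c3 r' hr' hi'] at h
          exact absurd h.symm (h2 r' (mem_Rw.2 hr') hi')
    · by_cases hr' : r' = Fin.last k
      · subst hr'
        rw [c1, c3 r hr hri] at h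
        exact absurd h (hU r (mem_Rw.2 hr))
      · by_cases hi' : r' = i
        · subst hi'
          rw [c2, c3 r hr hri] at h
          exact absurd h (h2 r (mem_Rw.2 hr) hri)
        · rw [c3 r hr hri, c3 r' hr' hi'] at h
          exact hinj r r' hr hr' h

/-- the number of successful end moves is at least the number of free tokens minus `2 T(z)` -/
theorem U_le_Mv (hn : k < n) {b : Fin (k + 1) → ZMod n} {e : ZMod n} (he : IsEnd n k e)
    {z : Fin (k + 1)} {g : Equiv.Perm (Fin (k + 1))} (hg : g ∈ Om b z) :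
    (U b e g).card ≤ (Mv b e g).card + 2 * (Nr b z).card := by
  classical
  obtain ⟨hgz, hinj⟩ := mem_Om.1 hg
  have hne : ∀ r ∈ Rw k, g r ≠ z := by
    intro r hr h
    rw [← hgz] at h
    exact mem_Rw.1 hr (g.injective h)
  set Y : Finset (Fin (k + 1)) := (Rw k).filter fun i => b (g i) + e = b z + ((i : ℕ) : ZMod n)
    with hY
  have hYc : Y.card ≤ (Nr b z).card := by
    refine Finset.card_le_card_of_injOn (fun i => g i) ?_ (g.injective.injOn)
    intro i hi
    obtain ⟨hiR, hi⟩ := Finset.mem_filter.1 (Finset.mem_coe.1 hi)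
    refine Finset.mem_coe.2 (mem_Nr.2 ⟨hne i hiR, ?_⟩)
    obtain ⟨d, hd, hd'⟩ := he.2 i hiR
    exact ⟨d, hd, by rw [← hd']; linear_combination hi⟩
  have hsub : U b e g ⊆ Mv b e g ∪ (NF b g z ∪ Y) := by
    intro i hi
    by_cases h2 : ∀ r ∈ Rw k, r ≠ i → b (g r) + ((r : ℕ) : ZMod n) ≠ b z + ((i : ℕ) : ZMod n)
    · by_cases h3 : b (g i) + e ≠ b z + ((i : ℕ) : ZMod n)
      · exact Finset.mem_union_left _ (end_move hg hi h2 h3)
      · push Not at h3
        exact Finset.mem_union_right _ (Finset.mem_union_right _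
          (Finset.mem_filter.2 ⟨(Finset.mem_filter.1 hi).1, h3⟩))
    · push Not at h2
      obtain ⟨r, hr, -, h⟩ := h2
      exact Finset.mem_union_right _ (Finset.mem_union_left _
        (Finset.mem_filter.2 ⟨(Finset.mem_filter.1 hi).1, r, hr, hne r hr, h⟩))
  have h1 := Finset.card_le_card hsub
  have h2 := Finset.card_union_le (Mv b e g) (NF b g z ∪ Y)
  have h3 := Finset.card_union_le (NF b g z) Y
  have h4 := card_NF hn b g z
  omega

/-- the end moves are injective -/
theorem sum_Mv (b : Fin (k + 1) → ZMod n) (e : ZMod n) (z : Fin (k + 1)) :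
    ∑ g ∈ Om b z, (Mv b e g).card ≤ (T b e).card := by
  classical
  rw [← Finset.card_sigma]
  refine Finset.card_le_card_of_injOn (fun p => p.1 * Equiv.swap (Fin.last k) p.2) ?_ ?_
  · rintro ⟨g, i⟩ hp
    rw [Finset.mem_coe, Finset.mem_sigma] at hp
    exact Finset.mem_coe.2 (Finset.mem_filter.1 hp.2).2
  · rintro ⟨g, i⟩ hp ⟨g', i'⟩ hp' h
    rw [Finset.mem_coe, Finset.mem_sigma] at hp hp'
    simp only at h hp hp'
    have hz : ∀ g : Equiv.Perm (Fin (k + 1)), ∀ i, g ∈ Om b z →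
        (g * Equiv.swap (Fin.last k) i) i = z := by
      intro g i hg
      rw [Equiv.Perm.mul_apply, Equiv.swap_apply_right]
      exact (mem_Om.1 hg).1
    have h1 := hz g i hp.1
    have h2 := hz g' i' hp'.1
    rw [← h] at h2
    have h3 : i = i' := (g * Equiv.swap (Fin.last k) i).injective (h1.trans h2.symm)
    subst h3
    have h4 : g = g' := mul_right_cancel h
    subst h4
    rfl

open Classical in
/-- tokens `t ≠ z` such that no token other than `z` has the label of `t` minus `k + 1` -/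
noncomputable def Dz (b : Fin (k + 1) → ZMod n) (z : Fin (k + 1)) : Finset (Fin (k + 1)) :=
  Finset.univ.filter fun t => t ≠ z ∧ ∀ s, s ≠ z → b s + ((k : ZMod n) + 1) ≠ b t

/-- for distinct labels the free tokens at the two ends are at least `Dz` in number -/
theorem two_ends {b : Fin (k + 1) → ZMod n} (hb : Function.Injective b)
    {z : Fin (k + 1)} {g : Equiv.Perm (Fin (k + 1))} (hg : g ∈ Om b z) :
    (Dz b z).card ≤ (U b (k : ZMod n) g).card + (U b (-1) g).card := by
  classical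
  obtain ⟨hgz, hinj⟩ := mem_Om.1 hg
  have hne : ∀ r ∈ Rw k, g r ≠ z := by
    intro r hr h
    rw [← hgz] at h
    exact mem_Rw.1 hr (g.injective h)
  have hbl : ∀ e : ZMod n, ∀ i ∈ Rw k \ U b e g, ∃ r ∈ Rw k,
      b (g r) + ((r : ℕ) : ZMod n) = b (g i) + e := by
    intro e i hi
    rw [Finset.mem_sdiff] at hi
    by_contra! h
    exact hi.2 (Finset.mem_filter.2 ⟨hi.1, h⟩)
  have hcard : ∀ e : ZMod n, (Rw k \ U b e g).card + (U b e g).card = k := by
    intro e
    have h := Finset.card_sdiff_add_card_eq_card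
      (show U b e g ⊆ Rw k from Finset.filter_subset _ _)
    rwa [card_Rw] at h
  set C : Finset (ZMod n) := (Rw k).image fun r => b (g r) + ((r : ℕ) : ZMod n) with hC
  have hCc : C.card ≤ k := by
    refine Finset.card_image_le.trans ?_
    rw [card_Rw]
  have hi : ∀ e : ZMod n, Function.Injective fun i => b (g i) + e := fun e i i' h =>
    g.injective (hb (add_right_cancel h))
  set X : Finset (ZMod n) := (Rw k \ U b (k : ZMod n) g).image fun i => b (g i) + (k : ZMod n)
    with hX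
  set Y : Finset (ZMod n) := (Rw k \ U b (-1) g).image fun i => b (g i) + (-1) with hY
  have hXc : X.card = (Rw k \ U b (k : ZMod n) g).card :=
    Finset.card_image_of_injective _ (hi _)
  have hYc : Y.card = (Rw k \ U b (-1) g).card :=
    Finset.card_image_of_injective _ (hi _)
  have hXY : X ∪ Y ⊆ C := by
    intro c hc
    rw [Finset.mem_union] at hc
    rcases hc with hc | hc
    · obtain ⟨i, hi, rfl⟩ := Finset.mem_image.1 hc
      obtain ⟨r, hr, h⟩ := hbl _ i hi
      exact Finset.mem_image.2 ⟨r, hr, h⟩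
    · obtain ⟨i, hi, rfl⟩ := Finset.mem_image.1 hc
      obtain ⟨r, hr, h⟩ := hbl _ i hi
      exact Finset.mem_image.2 ⟨r, hr, h⟩
  set E : Finset (Fin (k + 1)) := (Finset.univ.erase z) \ Dz b z with hE
  have hEc : E.card + (Dz b z).card = k := by
    have h := Finset.card_sdiff_add_card_eq_card
      (show Dz b z ⊆ Finset.univ.erase z from fun t ht =>
        Finset.mem_erase.2 ⟨(Finset.mem_filter.1 ht).2.1, Finset.mem_univ _⟩)
    rw [Finset.card_erase_of_mem (Finset.mem_univ _), Finset.card_univ, Fintype.card_fin] at h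
    exact h
  have hint : X ∩ Y ⊆ E.image fun t => b t + (-1) := by
    intro c hc
    rw [Finset.mem_inter] at hc
    obtain ⟨i, hi, hic⟩ := Finset.mem_image.1 hc.1
    obtain ⟨j, hj, hjc⟩ := Finset.mem_image.1 hc.2
    refine Finset.mem_image.2 ⟨g j, ?_, hjc⟩
    rw [Finset.mem_sdiff] at hi hj
    rw [hE, Finset.mem_sdiff]
    refine ⟨Finset.mem_erase.2 ⟨hne j hj.1, Finset.mem_univ _⟩, fun h => ?_⟩
    refine (Finset.mem_filter.1 h).2.2 (g i) (hne i hi.1) ?_
    linear_combination hic - hjc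
  have h1 := Finset.card_union_add_card_inter X Y
  have h2 := (Finset.card_le_card hXY).trans hCc
  have h3 := (Finset.card_le_card hint).trans Finset.card_image_le
  have h4 := hcard (k : ZMod n)
  have h5 := hcard (-1)
  omega

/-- the case of many defects -/
theorem case_defects (hn : k < n) {b : Fin (k + 1) → ZMod n} (hb : Function.Injective b)
    {z : Fin (k + 1)} (hD : 4 * (Nr b z).card + 2 ≤ (Dz b z).card) :
    (Om b z).card ≤ Phi n (k + 1) b := by
  have h1 : (Om b z).card * (Dz b z).card ≤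
      ∑ g ∈ Om b z, ((U b (k : ZMod n) g).card + (U b (-1) g).card) := by
    rw [← smul_eq_mul]
    exact Finset.card_nsmul_le_sum _ _ _ fun g hg => two_ends hb hg
  have h2 : ∀ e : ZMod n, IsEnd n k e → ∑ g ∈ Om b z, (U b e g).card ≤
      (T b e).card + (Om b z).card * (2 * (Nr b z).card) := by
    intro e he
    calc ∑ g ∈ Om b z, (U b e g).card
        ≤ ∑ g ∈ Om b z, ((Mv b e g).card + 2 * (Nr b z).card) :=
          Finset.sum_le_sum fun g hg => U_le_Mv hn he hg
      _ = ∑ g ∈ Om b z, (Mv b e g).card + (Om b z).card * (2 * (Nr b z).card) := by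
          rw [Finset.sum_add_distrib, Finset.sum_const, smul_eq_mul]
      _ ≤ _ := Nat.add_le_add_right (sum_Mv b e z) _
  have h3 := h2 _ (isEnd_top hn)
  have h4 := h2 _ (isEnd_bot hn)
  rw [T_top] at h3
  rw [T_bot] at h4
  rw [Finset.sum_add_distrib] at h1
  have h5 : (Om b z).card * (4 * (Nr b z).card + 2) ≤ (Om b z).card * (Dz b z).card :=
    Nat.mul_le_mul_left _ hD
  nlinarith

theorem fin_cases5 {α : Type} [DecidableEq α] {β : Type} {f : α → β} (a b c d : α)
    (h1 : ∀ r, r ≠ a → f r ≠ f a)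
    (h2 : ∀ r, r ≠ a → r ≠ b → f r ≠ f b)
    (h3 : ∀ r, r ≠ a → r ≠ b → r ≠ c → f r ≠ f c)
    (h4 : ∀ r, r ≠ a → r ≠ b → r ≠ c → r ≠ d → f r ≠ f d)
    (h5 : ∀ r r', r ≠ a → r ≠ b → r ≠ c → r ≠ d → r' ≠ a → r' ≠ b → r' ≠ c → r' ≠ d →
      f r = f r' → r = r') : Function.Injective f := by
  intro r r' h
  by_cases ha : r = a
  · by_contra hne
    exact h1 r' (fun h' => hne (ha.trans h'.symm)) (h.symm.trans (congrArg f ha))
  by_cases ha' : r' = a
  · exact absurd (h.trans (congrArg f ha')) (h1 r ha)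
  by_cases hb : r = b
  · by_contra hne
    exact h2 r' ha' (fun h' => hne (hb.trans h'.symm)) (h.symm.trans (congrArg f hb))
  by_cases hb' : r' = b
  · exact absurd (h.trans (congrArg f hb')) (h2 r ha hb)
  by_cases hc : r = c
  · by_contra hne
    exact h3 r' ha' hb' (fun h' => hne (hc.trans h'.symm)) (h.symm.trans (congrArg f hc))
  by_cases hc' : r' = c
  · exact absurd (h.trans (congrArg f hc')) (h3 r ha hb hc)
  by_cases hd : r = d
  · by_contra hne
    exact h4 r' ha' hb' hc' (fun h' => hne (hd.trans h'.symm)) (h.symm.trans (congrArg f hd))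
  by_cases hd' : r' = d
  · exact absurd (h.trans (congrArg f hd')) (h4 r ha hb hc hd)
  exact h5 r r' ha hb hc hd ha' hb' hc' hd' h

/-- the switched placement -/
def sw (g : Equiv.Perm (Fin (k + 1))) (i j ρ : Fin (k + 1)) : Equiv.Perm (Fin (k + 1)) :=
  g * Equiv.swap (Fin.last k) i * Equiv.swap i j * Equiv.swap j ρ

section
variable {g : Equiv.Perm (Fin (k + 1))} {i j ρ : Fin (k + 1)}

theorem sw_last (hi : i ≠ Fin.last k) (hj : j ≠ Fin.last k) (hρ : ρ ≠ Fin.last k) :
    sw g i j ρ (Fin.last k) = g i := by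
  rw [sw, Equiv.Perm.mul_apply, Equiv.swap_apply_of_ne_of_ne hj.symm hρ.symm,
    Equiv.Perm.mul_apply, Equiv.swap_apply_of_ne_of_ne hi.symm hj.symm,
    Equiv.Perm.mul_apply, Equiv.swap_apply_left]

theorem sw_i (hj : j ≠ Fin.last k) (hij : i ≠ j) (hiρ : i ≠ ρ) :
    sw g i j ρ i = g j := by
  rw [sw, Equiv.Perm.mul_apply, Equiv.swap_apply_of_ne_of_ne hij hiρ,
    Equiv.Perm.mul_apply, Equiv.swap_apply_left,
    Equiv.Perm.mul_apply, Equiv.swap_apply_of_ne_of_ne hj hij.symm]

theorem sw_j (hρ : ρ ≠ Fin.last k) (hiρ : i ≠ ρ) (hjρ : j ≠ ρ) :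
    sw g i j ρ j = g ρ := by
  rw [sw, Equiv.Perm.mul_apply, Equiv.swap_apply_left,
    Equiv.Perm.mul_apply, Equiv.swap_apply_of_ne_of_ne hiρ.symm hjρ.symm,
    Equiv.Perm.mul_apply, Equiv.swap_apply_of_ne_of_ne hρ hiρ.symm]

theorem sw_ρ : sw g i j ρ ρ = g (Fin.last k) := by
  rw [sw, Equiv.Perm.mul_apply, Equiv.swap_apply_right,
    Equiv.Perm.mul_apply, Equiv.swap_apply_right,
    Equiv.Perm.mul_apply, Equiv.swap_apply_right]

theorem sw_ne {r : Fin (k + 1)} (hr : r ≠ Fin.last k) (hri : r ≠ i) (hrj : r ≠ j)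
    (hrρ : r ≠ ρ) : sw g i j ρ r = g r := by
  rw [sw, Equiv.Perm.mul_apply, Equiv.swap_apply_of_ne_of_ne hrj hrρ,
    Equiv.Perm.mul_apply, Equiv.swap_apply_of_ne_of_ne hri hrj,
    Equiv.Perm.mul_apply, Equiv.swap_apply_of_ne_of_ne hr hri]

end

theorem sw_valid (hn : k < n) {b : Fin (k + 1) → ZMod n} {z : Fin (k + 1)} {g : Equiv.Perm (Fin (k + 1))} (hg : g ∈ Om b z) {i j ρ : Fin (k + 1)}
    (hi : i ∈ Rw k) (hj : j ∈ Rw k) (hρ : ρ ∈ Rw k) (hij : i ≠ j) (hiρ : i ≠ ρ) (hjρ : j ≠ ρ)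
    (hbl : b (g ρ) + ((ρ : ℕ) : ZMod n) = b (g i) + (k : ZMod n))
    (h1 : ρ ∉ NF b g z)
    (h2 : b z + ((ρ : ℕ) : ZMod n) ≠ b (g ρ) + ((j : ℕ) : ZMod n))
    (h3 : b z + ((ρ : ℕ) : ZMod n) ≠ b (g j) + ((i : ℕ) : ZMod n))
    (h4 : b (g ρ) + ((j : ℕ) : ZMod n) ≠ b (g j) + ((i : ℕ) : ZMod n))
    (h5 : j ∉ NF b g (g ρ)) (h6 : i ∉ NF b g (g j)) :
    sw g i j ρ ∈ T b (k : ZMod n) := by
  classical
  obtain ⟨hgz, hinj⟩ := mem_Om.1 hg
  have hil := mem_Rw.1 hi
  have hjl := mem_Rw.1 hj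
  have hρl := mem_Rw.1 hρ
  have hne : ∀ r ∈ Rw k, g r ≠ z := by
    intro r hr h
    rw [← hgz] at h
    exact mem_Rw.1 hr (g.injective h)
  have c1 : colE b (k : ZMod n) (sw g i j ρ) (Fin.last k) = b (g ρ) + ((ρ : ℕ) : ZMod n) := by
    rw [colE_last, sw_last hil hjl hρl, hbl]
  have c2 : colE b (k : ZMod n) (sw g i j ρ) i = b (g j) + ((i : ℕ) : ZMod n) := by
    rw [colE_ne _ _ _ hil, sw_i hjl hij hiρ]
  have c3 : colE b (k : ZMod n) (sw g i j ρ) j = b (g ρ) + ((j : ℕ) : ZMod n) := by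
    rw [colE_ne _ _ _ hjl, sw_j hρl hiρ hjρ]
  have c4 : colE b (k : ZMod n) (sw g i j ρ) ρ = b z + ((ρ : ℕ) : ZMod n) := by
    rw [colE_ne _ _ _ hρl, sw_ρ, hgz]
  have c5 : ∀ r, r ≠ Fin.last k → r ≠ i → r ≠ j → r ≠ ρ →
      colE b (k : ZMod n) (sw g i j ρ) r = b (g r) + ((r : ℕ) : ZMod n) := by
    intro r hr hri hrj hrρ
    rw [colE_ne _ _ _ hr, sw_ne hr hri hrj hrρ]
  have f1 : ∀ r ∈ Rw k, b (g r) + ((r : ℕ) : ZMod n) ≠ b z + ((ρ : ℕ) : ZMod n) := by
    intro r hr h
    exact h1 (Finset.mem_filter.2 ⟨hρ, r, hr, hne r hr, h⟩)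
  have f5 : ∀ r ∈ Rw k, r ≠ ρ → b (g r) + ((r : ℕ) : ZMod n) ≠
      b (g ρ) + ((j : ℕ) : ZMod n) := by
    intro r hr hrρ h
    exact h5 (Finset.mem_filter.2 ⟨hj, r, hr, fun h' => hrρ (g.injective h'), h⟩)
  have f6 : ∀ r ∈ Rw k, r ≠ j → b (g r) + ((r : ℕ) : ZMod n) ≠
      b (g j) + ((i : ℕ) : ZMod n) := by
    intro r hr hrj h
    exact h6 (Finset.mem_filter.2 ⟨hi, r, hr, fun h' => hrj (g.injective h'), h⟩)
  rw [mem_T]
  refine fin_cases5 (Fin.last k) i j ρ ?_ ?_ ?_ ?_ ?_
  · intro r hr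
    rw [c1]
    by_cases hri : r = i
    · subst hri
      rw [c2]
      exact (f6 ρ hρ hjρ.symm).symm
    by_cases hrj : r = j
    · subst hrj
      rw [c3]
      intro h
      exact hjρ (row_inj hn (add_left_cancel h))
    by_cases hrρ : r = ρ
    · subst hrρ
      rw [c4]
      exact (f1 r hρ).symm
    rw [c5 r hr hri hrj hrρ]
    intro h
    exact hrρ (hinj r ρ hr hρl h)
  · intro r hr hri
    rw [c2]
    by_cases hrj : r = j
    · subst hrj
      rw [c3]
      exact h4
    by_cases hrρ : r = ρ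
    · subst hrρ
      rw [c4]
      exact h3
    rw [c5 r hr hri hrj hrρ]
    exact f6 r (mem_Rw.2 hr) hrj
  · intro r hr hri hrj
    rw [c3]
    by_cases hrρ : r = ρ
    · subst hrρ
      rw [c4]
      exact h2
    rw [c5 r hr hri hrj hrρ]
    exact f5 r (mem_Rw.2 hr) hrρ
  · intro r hr hri hrj hrρ
    rw [c4, c5 r hr hri hrj hrρ]
    exact f1 r (mem_Rw.2 hr)
  · intro r r' hr hri hrj hrρ hr' hri' hrj' hrρ' h
    rw [c5 r hr hri hrj hrρ, c5 r' hr' hri' hrj' hrρ'] at h
    exact hinj r r' hr hr' h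

open Classical in
/-- the pairs of rows that can be switched -/
noncomputable def Gd (b : Fin (k + 1) → ZMod n) (g : Equiv.Perm (Fin (k + 1))) :
    Finset (Fin (k + 1) × Fin (k + 1)) :=
  (Rw k ×ˢ Rw k).filter fun p => ∃ ρ ∈ Rw k, p.1 ≠ p.2 ∧ p.1 ≠ ρ ∧ p.2 ≠ ρ ∧
    b (g ρ) + ((ρ : ℕ) : ZMod n) = b (g p.1) + (k : ZMod n) ∧
    sw g p.1 p.2 ρ ∈ T b (k : ZMod n)

/-- each valid placement comes from at most `k` switchings -/
theorem sum_Gd {b : Fin (k + 1) → ZMod n} (hb : Function.Injective b) (z : Fin (k + 1)) :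
    ∑ g ∈ Om b z, (Gd b g).card ≤ (T b (k : ZMod n)).card * k := by
  classical
  rw [← Finset.card_sigma]
  have h : ∀ q ∈ (Om b z).sigma fun g => Gd b g, ∃ ρ ∈ Rw k, q.2.1 ≠ q.2.2 ∧ q.2.1 ≠ ρ ∧
      q.2.2 ≠ ρ ∧ b (q.1 ρ) + ((ρ : ℕ) : ZMod n) = b (q.1 q.2.1) + (k : ZMod n) ∧
      sw q.1 q.2.1 q.2.2 ρ ∈ T b (k : ZMod n) := by
    intro q hq
    exact (Finset.mem_filter.1 (Finset.mem_sigma.1 hq).2).2
  choose! f hf using h
  have hc : ((T b (k : ZMod n)) ×ˢ Rw k).card = (T b (k : ZMod n)).card * k := by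
    rw [Finset.card_product, card_Rw]
  rw [← hc]
  refine Finset.card_le_card_of_injOn (fun q => (sw q.1 q.2.1 q.2.2 (f q), q.2.1)) ?_ ?_
  · intro q hq
    have hq := Finset.mem_coe.1 hq
    obtain ⟨-, -, -, -, -, h6⟩ := hf q hq
    have h7 := (Finset.mem_filter.1 (Finset.mem_sigma.1 hq).2).1
    exact Finset.mem_coe.2 (Finset.mem_product.2 ⟨h6, (Finset.mem_product.1 h7).1⟩)
  · rintro ⟨g, i, j⟩ hq ⟨g', i', j'⟩ hq' h
    have hq := Finset.mem_coe.1 hq
    have hq' := Finset.mem_coe.1 hq'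
    obtain ⟨h1, h2, h3, h4, h5, -⟩ := hf _ hq
    obtain ⟨h1', h2', h3', h4', h5', -⟩ := hf _ hq'
    have h7 := Finset.mem_product.1 (Finset.mem_filter.1 (Finset.mem_sigma.1 hq).2).1
    have h7' := Finset.mem_product.1 (Finset.mem_filter.1 (Finset.mem_sigma.1 hq').2).1
    have hg := (mem_Om.1 (Finset.mem_sigma.1 hq).1).1
    have hg' := (mem_Om.1 (Finset.mem_sigma.1 hq').1).1
    simp only at h h1 h2 h3 h4 h5 h7 h1' h2' h3' h4' h5' h7' hg hg'
    set ρ := f ⟨g, i, j⟩ with hρ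
    set ρ' := f ⟨g', i', j'⟩ with hρ'
    rw [Prod.mk.injEq] at h
    obtain ⟨hs, rfl⟩ := h
    have e1 : ρ = ρ' := by
      apply (sw g i j ρ).injective
      rw [sw_ρ, hs, sw_ρ, hg, hg']
    have e2 : j = j' := by
      apply (sw g i j ρ).injective
      apply hb
      have s1 := sw_j (g := g) (mem_Rw.1 h1) h3 h4
      have s2 := sw_j (g := g') (mem_Rw.1 h1') h3' h4'
      have s3 := sw_last (g := g) (mem_Rw.1 h7.1) (mem_Rw.1 h7.2) (mem_Rw.1 h1)
      have s4 := sw_last (g := g') (mem_Rw.1 h7'.1) (mem_Rw.1 h7'.2) (mem_Rw.1 h1')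
      rw [← hs] at s2 s4
      rw [s1, s2]
      rw [s3] at s4
      rw [← e1] at h5'
      rw [s4] at h5
      rw [← e1]
      exact add_right_cancel (h5.trans h5'.symm)
    subst e2
    rw [← e1] at hs
    have e3 : g = g' := by
      unfold sw at hs
      exact mul_right_cancel (mul_right_cancel (mul_right_cancel hs))
    subst e3
    rfl

/-- placements with few free tokens have many switchings -/
theorem card_Gd (hn : k < n) {b : Fin (k + 1) → ZMod n} (hb : Function.Injective b)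
    {z : Fin (k + 1)} {g : Equiv.Perm (Fin (k + 1))} (hg : g ∈ Om b z) {T0 Tm : ℕ}
    (hT0 : (Nr b z).card ≤ T0) (hTm : ∀ x, (Nr b x).card ≤ Tm)
    (hU : (U b (k : ZMod n) g).card ≤ 2 * T0 + 1) :
    (k - (3 * T0 + 1)) * (k - (4 + 2 * Tm)) ≤ (Gd b g).card + k * Tm := by
  classical
  obtain ⟨hgz, hinj⟩ := mem_Om.1 hg
  have hbl : ∀ i ∈ Rw k \ U b (k : ZMod n) g, ∃ r ∈ Rw k,
      b (g r) + ((r : ℕ) : ZMod n) = b (g i) + (k : ZMod n) := by
    intro i hi
    rw [Finset.mem_sdiff] at hi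
    by_contra! h
    exact hi.2 (Finset.mem_filter.2 ⟨hi.1, h⟩)
  choose! ρ hρ hρc using hbl
  set I : Finset (Fin (k + 1)) := (Rw k \ U b (k : ZMod n) g).filter fun i => ρ i ∉ NF b g z
    with hI
  have hIc : k - (3 * T0 + 1) ≤ I.card := by
    have h1 := Finset.card_sdiff_add_card_eq_card
      (show U b (k : ZMod n) g ⊆ Rw k from Finset.filter_subset _ _)
    rw [card_Rw] at h1
    have h2 : ((Rw k \ U b (k : ZMod n) g).filter fun i => ¬ ρ i ∉ NF b g z).card ≤ T0 := by
      refine le_trans ?_ ((card_NF hn b g z).trans hT0)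
      refine Finset.card_le_card_of_injOn ρ ?_ ?_
      · intro i hi
        have := (Finset.mem_filter.1 (Finset.mem_coe.1 hi)).2
        push Not at this
        exact Finset.mem_coe.2 this
      · intro i hi i' hi' h
        have h3 := hρc i (Finset.mem_filter.1 (Finset.mem_coe.1 hi)).1
        have h4 := hρc i' (Finset.mem_filter.1 (Finset.mem_coe.1 hi')).1
        rw [h] at h3
        exact g.injective (hb (add_right_cancel (h3.symm.trans h4)))
    have h3 : I.card + ((Rw k \ U b (k : ZMod n) g).filter fun i => ¬ ρ i ∉ NF b g z).card =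
        (Rw k \ U b (k : ZMod n) g).card :=
      Finset.card_filter_add_card_filter_not (s := Rw k \ U b (k : ZMod n) g)
      (fun i => ρ i ∉ NF b g z)
    omega
  -- the rows `j` for a given `i`
  set J : Fin (k + 1) → Finset (Fin (k + 1)) := fun i =>
    (Rw k).filter fun j => i ≠ j ∧ j ≠ ρ i ∧
      b z + ((ρ i : ℕ) : ZMod n) ≠ b (g (ρ i)) + ((j : ℕ) : ZMod n) ∧
      b z + ((ρ i : ℕ) : ZMod n) ≠ b (g j) + ((i : ℕ) : ZMod n) ∧
      b (g (ρ i)) + ((j : ℕ) : ZMod n) ≠ b (g j) + ((i : ℕ) : ZMod n) ∧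
      j ∉ NF b g (g (ρ i)) with hJ
  have hJc : ∀ i ∈ I, k - (4 + 2 * Tm) ≤ (J i).card := by
    intro i hi
    set B1 : Finset (Fin (k + 1)) := {i, ρ i} with hB1
    set B2 : Finset (Fin (k + 1)) := (Rw k).filter fun j =>
      b z + ((ρ i : ℕ) : ZMod n) = b (g (ρ i)) + ((j : ℕ) : ZMod n) with hB2
    set B3 : Finset (Fin (k + 1)) := (Rw k).filter fun j =>
      b z + ((ρ i : ℕ) : ZMod n) = b (g j) + ((i : ℕ) : ZMod n) with hB3
    set B4 : Finset (Fin (k + 1)) := (Rw k).filter fun j => j ≠ ρ i ∧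
      b (g (ρ i)) + ((j : ℕ) : ZMod n) = b (g j) + ((i : ℕ) : ZMod n) with hB4
    have hsub : Rw k ⊆ J i ∪ (B1 ∪ (B2 ∪ (B3 ∪ (B4 ∪ NF b g (g (ρ i)))))) := by
      intro j hj
      by_cases h1 : i = j
      · subst h1; simp [hB1]
      by_cases h2 : j = ρ i
      · subst h2; simp [hB1]
      by_cases h3 : b z + ((ρ i : ℕ) : ZMod n) = b (g (ρ i)) + ((j : ℕ) : ZMod n)
      · have : j ∈ B2 := Finset.mem_filter.2 ⟨hj, h3⟩
        simp [this]
      by_cases h4 : b z + ((ρ i : ℕ) : ZMod n) = b (g j) + ((i : ℕ) : ZMod n)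
      · have : j ∈ B3 := Finset.mem_filter.2 ⟨hj, h4⟩
        simp [this]
      by_cases h5 : b (g (ρ i)) + ((j : ℕ) : ZMod n) = b (g j) + ((i : ℕ) : ZMod n)
      · have : j ∈ B4 := Finset.mem_filter.2 ⟨hj, h2, h5⟩
        simp [this]
      by_cases h6 : j ∈ NF b g (g (ρ i))
      · simp [h6]
      · have : j ∈ J i := Finset.mem_filter.2 ⟨hj, h1, h2, h3, h4, h5, h6⟩
        simp [this]
    have c1 : B1.card ≤ 2 := Finset.card_le_two
    have c2 : B2.card ≤ 1 := by
      apply Finset.card_le_one.2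
      intro a ha c hc
      have ha := (Finset.mem_filter.1 ha).2
      have hc := (Finset.mem_filter.1 hc).2
      exact row_inj hn (add_left_cancel (ha.symm.trans hc))
    have c3 : B3.card ≤ 1 := by
      apply Finset.card_le_one.2
      intro a ha c hc
      have ha := (Finset.mem_filter.1 ha).2
      have hc := (Finset.mem_filter.1 hc).2
      exact g.injective (hb (add_right_cancel (ha.symm.trans hc)))
    have c4 : B4.card ≤ Tm := by
      refine le_trans ?_ (hTm (g (ρ i)))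
      refine Finset.card_le_card_of_injOn (fun j => g j) ?_ g.injective.injOn
      intro j hj
      obtain ⟨-, hj1, hj2⟩ := Finset.mem_filter.1 (Finset.mem_coe.1 hj)
      exact Finset.mem_coe.2 (mem_Nr.2 ⟨fun h => hj1 (g.injective h), near_of_eq hj2⟩)
    have c5 : (NF b g (g (ρ i))).card ≤ Tm := (card_NF hn b g _).trans (hTm _)
    have h0 := Finset.card_le_card hsub
    rw [card_Rw] at h0
    have u1 := Finset.card_union_le (J i) (B1 ∪ (B2 ∪ (B3 ∪ (B4 ∪ NF b g (g (ρ i))))))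
    have u2 := Finset.card_union_le B1 (B2 ∪ (B3 ∪ (B4 ∪ NF b g (g (ρ i)))))
    have u3 := Finset.card_union_le B2 (B3 ∪ (B4 ∪ NF b g (g (ρ i))))
    have u4 := Finset.card_union_le B3 (B4 ∪ NF b g (g (ρ i)))
    have u5 := Finset.card_union_le B4 (NF b g (g (ρ i)))
    omega
  set Bg : Finset (Fin (k + 1) × Fin (k + 1)) :=
    (Rw k).biUnion fun j => (NF b g (g j)).image fun i => (i, j) with hBg
  have hBgc : Bg.card ≤ k * Tm := by
    refine Finset.card_biUnion_le.trans ?_
    have h1 : ∀ j ∈ Rw k, ((NF b g (g j)).image fun i => (i, j)).card ≤ Tm := fun j _ =>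
      Finset.card_image_le.trans ((card_NF hn b g _).trans (hTm _))
    refine (Finset.sum_le_card_nsmul _ _ _ h1).trans ?_
    rw [card_Rw, smul_eq_mul]
  set P : Finset (Fin (k + 1) × Fin (k + 1)) := I.biUnion fun i => (J i).image fun j => (i, j)
    with hP
  have hPc : (k - (3 * T0 + 1)) * (k - (4 + 2 * Tm)) ≤ P.card := by
    rw [hP, Finset.card_biUnion]
    · have h1 : ∀ i ∈ I, k - (4 + 2 * Tm) ≤ ((J i).image fun j => (i, j)).card := by
        intro i hi
        rw [Finset.card_image_of_injective _ (fun a c h => (Prod.mk.inj h).2)]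
        exact hJc i hi
      refine le_trans ?_ (Finset.card_nsmul_le_sum _ _ _ h1)
      rw [smul_eq_mul]
      exact Nat.mul_le_mul_right _ hIc
    · intro i _ i' _ hne
      rw [Function.onFun, Finset.disjoint_left]
      intro p hp hp'
      obtain ⟨j, -, rfl⟩ := Finset.mem_image.1 hp
      obtain ⟨j', -, h⟩ := Finset.mem_image.1 hp'
      exact hne (Prod.mk.inj h).1.symm
  have hsub : P ⊆ Gd b g ∪ Bg := by
    intro p hp
    obtain ⟨i, hi, hp⟩ := Finset.mem_biUnion.1 hp
    obtain ⟨j, hj, rfl⟩ := Finset.mem_image.1 hp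
    obtain ⟨hi1, hi2⟩ := Finset.mem_filter.1 hi
    obtain ⟨hjR, hij, hjρ, h2, h3, h4, h5⟩ := Finset.mem_filter.1 hj
    have hiR := (Finset.mem_sdiff.1 hi1).1
    rw [Finset.mem_union]
    by_cases h6 : i ∈ NF b g (g j)
    · right
      exact Finset.mem_biUnion.2 ⟨j, hjR, Finset.mem_image.2 ⟨i, h6, rfl⟩⟩
    · left
      have hiρ : i ≠ ρ i := by
        intro h
        have h7 := hρc i hi1
        rw [← h] at h7
        exact (isEnd_top hn).1 i hiR (add_left_cancel h7)
      refine Finset.mem_filter.2 ⟨Finset.mem_product.2 ⟨hiR, hjR⟩, ρ i, hρ i hi1, hij, hiρ, hjρ,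
        hρc i hi1, ?_⟩
      exact sw_valid hn hg hiR hjR (hρ i hi1) hij hiρ hjρ (hρc i hi1) hi2 h2 h3 h4 h5 h6
  have h1 := Finset.card_le_card hsub
  have h2 := Finset.card_union_le (Gd b g) Bg
  omega

/-- the switching theorem: the case where all neighbourhoods are small -/
theorem case_small (hn : k < n) {b : Fin (k + 1) → ZMod n} (hb : Function.Injective b)
    {z : Fin (k + 1)} {T0 Tm : ℕ} (hk : 0 < k) (hT0 : (Nr b z).card ≤ T0)
    (hTm : ∀ x, (Nr b x).card ≤ Tm)
    (hG : 2 * k + k * Tm ≤ (k - (3 * T0 + 1)) * (k - (4 + 2 * Tm))) :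
    (Om b z).card ≤ Phi n (k + 1) b := by
  classical
  set A := (Om b z).filter fun g => (U b (k : ZMod n) g).card ≤ 2 * T0 + 1 with hA
  set B := (Om b z).filter fun g => ¬ (U b (k : ZMod n) g).card ≤ 2 * T0 + 1 with hB
  have h0 : A.card + B.card = (Om b z).card := Finset.card_filter_add_card_filter_not _
  have h1 : A.card * (2 * k) ≤ Phi n (k + 1) b * k := by
    rw [← T_top]
    refine le_trans ?_ (sum_Gd hb z)
    rw [← smul_eq_mul]
    refine (Finset.card_nsmul_le_sum A (fun g => (Gd b g).card) _ ?_).trans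
      (Finset.sum_le_sum_of_subset (Finset.filter_subset _ _))
    intro g hg
    obtain ⟨hg1, hg2⟩ := Finset.mem_filter.1 hg
    have h2 := card_Gd hn hb hg1 hT0 hTm hg2
    omega
  have h2 : B.card * 2 ≤ Phi n (k + 1) b := by
    rw [← T_top]
    refine le_trans ?_ (sum_Mv b (k : ZMod n) z)
    rw [← smul_eq_mul]
    refine (Finset.card_nsmul_le_sum B (fun g => (Mv b (k : ZMod n) g).card) _ ?_).trans
      (Finset.sum_le_sum_of_subset (Finset.filter_subset _ _))
    intro g hg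
    obtain ⟨hg1, hg2⟩ := Finset.mem_filter.1 hg
    have h3 := U_le_Mv hn (isEnd_top hn) hg1
    omega
  have h3 : A.card * 2 ≤ Phi n (k + 1) b := by
    have : A.card * 2 * k ≤ Phi n (k + 1) b * k := by
      calc A.card * 2 * k = A.card * (2 * k) := by ring
        _ ≤ _ := h1
    exact Nat.le_of_mul_le_mul_right this hk
  omega

/-- no token within distance `k` after `z` -/
theorem case_free {b : Fin (k + 1) → ZMod n} {z : Fin (k + 1)}
    (hz : ∀ w, ∀ d : ℕ, 1 ≤ d → d ≤ k → b w ≠ b z + (d : ZMod n)) :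
    (Om b z).card ≤ Phi n (k + 1) b := by
  classical
  rw [← T_top]
  apply Finset.card_le_card
  intro g hg
  obtain ⟨hgz, hinj⟩ := mem_Om.1 hg
  rw [mem_T]
  have key : ∀ r, r ≠ Fin.last k → colE b (k : ZMod n) g r ≠ colE b (k : ZMod n) g (Fin.last k) := by
    intro r hr h
    rw [colE_last, colE_ne _ _ _ hr, hgz] at h
    have h1 : (r : ℕ) < k := by
      have := Fin.lt_last_iff_ne_last.2 hr
      exact this
    apply hz (g r) (k - r) (by omega) (by omega)
    rw [Nat.cast_sub h1.le, ← add_sub_assoc, ← h, add_sub_cancel_right]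
  intro r r' h
  by_cases hr : r = Fin.last k
  · by_cases hr' : r' = Fin.last k
    · rw [hr, hr']
    · subst hr
      exact absurd h.symm (key r' hr')
  · by_cases hr' : r' = Fin.last k
    · subst hr'
      exact absurd h (key r hr)
    · rw [colE_ne _ _ _ hr, colE_ne _ _ _ hr'] at h
      exact hinj r r' hr hr' h

open Classical in
/-- the tokens with label in the window `[x, x + W)` -/
noncomputable def Wn (b : Fin (k + 1) → ZMod n) (x : ZMod n) (W : ℕ) : Finset (Fin (k + 1)) :=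
  Finset.univ.filter fun t => ∃ j : ℕ, j < W ∧ b t = x + (j : ZMod n)

theorem mem_Wn {b : Fin (k + 1) → ZMod n} {x : ZMod n} {W : ℕ} {t : Fin (k + 1)} :
    t ∈ Wn b x W ↔ ∃ j : ℕ, j < W ∧ b t = x + (j : ZMod n) := by
  simp [Wn]

theorem window_inj {q W : ℕ} (hq : q * W ≤ n) {x : ZMod n} {i i' j j' : ℕ} (hi : i < q)
    (hi' : i' < q) (hj : j < W) (hj' : j' < W)
    (h : x + ((i * W : ℕ) : ZMod n) + (j : ZMod n) = x + ((i' * W : ℕ) : ZMod n) + (j' : ZMod n)) :
    i = i' := by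
  have h1 : ((i * W + j : ℕ) : ZMod n) = ((i' * W + j' : ℕ) : ZMod n) := by
    push_cast
    push_cast at h
    linear_combination h
  have hb : ∀ {i j : ℕ}, i < q → j < W → i * W + j < n := by
    intro i j hi hj
    have h2 : (i + 1) * W ≤ q * W := Nat.mul_le_mul_right _ hi
    rw [add_mul, one_mul] at h2
    omega
  rw [ZMod.natCast_eq_natCast_iff', Nat.mod_eq_of_lt (hb hi hj), Nat.mod_eq_of_lt (hb hi' hj')]
    at h1
  have hd : ∀ {i j : ℕ}, j < W → (i * W + j) / W = i := by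
    intro i j hj
    rw [Nat.add_comm, Nat.add_mul_div_right _ _ (by omega), Nat.div_eq_of_lt hj, zero_add]
  have h5 := hd (i := i) hj
  rw [h1, hd (i := i') hj'] at h5
  exact h5.symm

theorem sum_Wn {q W : ℕ} (hq : q * W ≤ n) (b : Fin (k + 1) → ZMod n) (x : ZMod n)
    (S : Finset (Fin (k + 1))) :
    ∑ i ∈ Finset.range q, (S ∩ Wn b (x + ((i * W : ℕ) : ZMod n)) W).card ≤ S.card := by
  classical
  rw [← Finset.card_biUnion]
  · apply Finset.card_le_card
    intro t ht
    obtain ⟨i, -, ht⟩ := Finset.mem_biUnion.1 ht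
    exact (Finset.mem_inter.1 ht).1
  · intro i hi i' hi' hne
    rw [Function.onFun, Finset.disjoint_left]
    intro t ht ht'
    obtain ⟨j, hj, h⟩ := mem_Wn.1 (Finset.mem_inter.1 ht).2
    obtain ⟨j', hj', h'⟩ := mem_Wn.1 (Finset.mem_inter.1 ht').2
    exact hne (window_inj hq (Finset.mem_range.1 (Finset.mem_coe.1 hi))
      (Finset.mem_range.1 (Finset.mem_coe.1 hi')) hj hj' (h.symm.trans h'))

theorem poor {q W : ℕ} (hq0 : 0 < q) (hq : q * W ≤ n) (b : Fin (k + 1) → ZMod n) (x : ZMod n) :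
    ∃ i < q, q * (Wn b (x + ((i * W : ℕ) : ZMod n)) W).card ≤ k + 1 := by
  classical
  by_contra! h
  have h1 := sum_Wn hq b x Finset.univ
  rw [Finset.card_univ, Fintype.card_fin] at h1
  have h2 : ∑ _i ∈ Finset.range q, (k + 1) <
      ∑ i ∈ Finset.range q, q * (Wn b (x + ((i * W : ℕ) : ZMod n)) W).card := by
    apply Finset.sum_lt_sum_of_nonempty
    · exact ⟨0, Finset.mem_range.2 hq0⟩
    · intro i hi
      exact h i (Finset.mem_range.1 hi)
  rw [Finset.sum_const, Finset.card_range, smul_eq_mul, ← Finset.mul_sum] at h2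
  have h3 := Nat.lt_of_mul_lt_mul_left h2
  simp only [Finset.univ_inter] at h1
  omega

open Classical in
/-- tokens with no token at the label minus `k + 1` -/
noncomputable def Df (b : Fin (k + 1) → ZMod n) : Finset (Fin (k + 1)) :=
  Finset.univ.filter fun t => ∀ s, b s + ((k : ZMod n) + 1) ≠ b t

theorem card_Df (b : Fin (k + 1) → ZMod n) (z : Fin (k + 1)) :
    (Df b).card ≤ (Dz b z).card + 1 := by
  classical
  refine (Finset.card_le_card ?_).trans (Finset.card_insert_le z (Dz b z))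
  intro t ht
  rw [Finset.mem_insert]
  by_cases h : t = z
  · exact Or.inl h
  · exact Or.inr (Finset.mem_filter.2 ⟨Finset.mem_univ _, h, fun s _ =>
      (Finset.mem_filter.1 ht).2 s⟩)

theorem step {b : Fin (k + 1) → ZMod n} (hb : Function.Injective b) (x : ZMod n) :
    (Wn b (x + ((k : ZMod n) + 1)) (k + 1)).card ≤
      (Wn b x (k + 1)).card + (Df b ∩ Wn b (x + ((k : ZMod n) + 1)) (k + 1)).card := by
  classical
  set A := Wn b (x + ((k : ZMod n) + 1)) (k + 1) with hA
  have h1 : ∀ t ∈ A \ Df b, ∃ s, b s + ((k : ZMod n) + 1) = b t := by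
    intro t ht
    rw [Finset.mem_sdiff] at ht
    by_contra! h
    exact ht.2 (Finset.mem_filter.2 ⟨Finset.mem_univ _, h⟩)
  choose! f hf using h1
  have h2 : (A \ Df b).card ≤ (Wn b x (k + 1)).card := by
    refine Finset.card_le_card_of_injOn f ?_ ?_
    · intro t ht
      have ht := Finset.mem_coe.1 ht
      obtain ⟨j, hj, h⟩ := mem_Wn.1 (Finset.mem_sdiff.1 ht).1
      refine Finset.mem_coe.2 (mem_Wn.2 ⟨j, hj, ?_⟩)
      have h3 := hf t ht
      rw [h] at h3
      linear_combination h3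
    · intro t ht t' ht' h
      have h3 := hf t (Finset.mem_coe.1 ht)
      have h4 := hf t' (Finset.mem_coe.1 ht')
      rw [h] at h3
      exact hb (h3.symm.trans h4)
  have h3 : A ⊆ (A \ Df b) ∪ (Df b ∩ A) := by
    intro t ht
    by_cases h : t ∈ Df b
    · simp [h, ht]
    · simp [h, ht]
  have h4 := (Finset.card_le_card h3).trans (Finset.card_union_le _ _)
  omega

theorem win_bound {b : Fin (k + 1) → ZMod n} (hb : Function.Injective b) {q : ℕ} (hq0 : 0 < q)
    (hq : q * (k + 1) ≤ n) (x : ZMod n) :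
    q * (Wn b x (k + 1)).card ≤ (k + 1) + q * (Df b).card := by
  classical
  set x0 : ZMod n := x - (((q - 1) * (k + 1) : ℕ) : ZMod n) with hx0
  obtain ⟨i0, hi0, h0⟩ := poor hq0 hq b x0
  have key : ∀ i, i0 ≤ i → (Wn b (x0 + ((i * (k + 1) : ℕ) : ZMod n)) (k + 1)).card ≤
      (Wn b (x0 + ((i0 * (k + 1) : ℕ) : ZMod n)) (k + 1)).card +
      ∑ l ∈ Finset.Ico (i0 + 1) (i + 1),
        (Df b ∩ Wn b (x0 + ((l * (k + 1) : ℕ) : ZMod n)) (k + 1)).card := by
    intro i hi
    induction i, hi using Nat.le_induction with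
    | base => simp
    | succ i hi ih =>
      rw [Finset.sum_Ico_succ_top (by omega)]
      have h1 := step hb (x0 + ((i * (k + 1) : ℕ) : ZMod n))
      have h2 : x0 + ((i * (k + 1) : ℕ) : ZMod n) + ((k : ZMod n) + 1) =
          x0 + (((i + 1) * (k + 1) : ℕ) : ZMod n) := by
        push_cast
        ring
      rw [h2] at h1
      omega
  have h1 := key (q - 1) (by omega)
  have h2 : x0 + (((q - 1) * (k + 1) : ℕ) : ZMod n) = x := by
    rw [hx0]
    ring
  rw [h2, Nat.sub_add_cancel hq0] at h1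
  have h3 : ∑ l ∈ Finset.Ico (i0 + 1) q,
      (Df b ∩ Wn b (x0 + ((l * (k + 1) : ℕ) : ZMod n)) (k + 1)).card ≤ (Df b).card := by
    refine le_trans ?_ (sum_Wn hq b x0 (Df b))
    apply Finset.sum_le_sum_of_subset
    intro l hl
    rw [Finset.mem_range]
    exact (Finset.mem_Ico.1 hl).2
  calc q * (Wn b x (k + 1)).card
      ≤ q * ((Wn b (x0 + ((i0 * (k + 1) : ℕ) : ZMod n)) (k + 1)).card + (Df b).card) :=
        Nat.mul_le_mul_left _ (by omega)
    _ = q * (Wn b (x0 + ((i0 * (k + 1) : ℕ) : ZMod n)) (k + 1)).card + q * (Df b).card := by ring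
    _ ≤ _ := Nat.add_le_add_right h0 _

theorem Nr_bound (b : Fin (k + 1) → ZMod n) (x : Fin (k + 1)) :
    (Nr b x).card + 1 ≤ (Wn b (b x - (k : ZMod n)) (k + 1)).card +
      (Wn b (b x + 1) (k + 1)).card := by
  classical
  have h1 : x ∉ Nr b x := fun h => (mem_Nr.1 h).1 rfl
  rw [← Finset.card_insert_of_notMem h1]
  refine (Finset.card_le_card ?_).trans (Finset.card_union_le _ _)
  intro t ht
  have hd : Near b x t := by
    rcases Finset.mem_insert.1 ht with rfl | ht
    · exact ⟨0, by simp, by simp⟩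
    · exact (mem_Nr.1 ht).2
  obtain ⟨d, hd, h⟩ := hd
  rw [Finset.mem_union]
  by_cases h0 : d ≤ 0
  · left
    refine mem_Wn.2 ⟨(d + k).toNat, by omega, ?_⟩
    have h2 : (((d + k).toNat : ℕ) : ZMod n) = ((d + k : ℤ) : ZMod n) := by
      rw [← Int.cast_natCast, Int.toNat_of_nonneg (by omega)]
    rw [h2, h]
    push_cast
    ring
  · right
    refine mem_Wn.2 ⟨(d - 1).toNat, by omega, ?_⟩
    have h2 : (((d - 1).toNat : ℕ) : ZMod n) = ((d - 1 : ℤ) : ZMod n) := by
      rw [← Int.cast_natCast, Int.toNat_of_nonneg (by omega)]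
    rw [h2, h]
    push_cast
    ring

/-- if every token has a token within distance `k` after it then so has every point -/
theorem window_nonempty [NeZero n] {b : Fin (k + 1) → ZMod n}
    (hb : ∀ z, ∃ w, ∃ d : ℕ, 1 ≤ d ∧ d ≤ k ∧ b w = b z + (d : ZMod n)) (p : ZMod n) :
    ∃ w, ∃ j : ℕ, 1 ≤ j ∧ j ≤ k ∧ b w = p + (j : ZMod n) := by
  classical
  obtain ⟨w, -, hw⟩ := Finset.exists_min_image (Finset.univ : Finset (Fin (k + 1)))
    (fun w => (p - b w).val) ⟨0, Finset.mem_univ _⟩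
  obtain ⟨w', d, hd1, hdk, hw'⟩ := hb w
  have h1 := hw w' (Finset.mem_univ _)
  by_cases hlt : (p - b w).val < d
  · refine ⟨w', d - (p - b w).val, by omega, by omega, ?_⟩
    rw [Nat.cast_sub hlt.le, ZMod.natCast_val, ZMod.cast_id, hw']
    ring
  · exfalso
    have h2 : p - b w' = (((p - b w).val - d : ℕ) : ZMod n) := by
      rw [Nat.cast_sub (by omega), ZMod.natCast_val, ZMod.cast_id, hw']
      ring
    have h3 : (p - b w').val = (p - b w).val - d := by
      rw [h2]
      apply ZMod.val_cast_of_lt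
      have := ZMod.val_lt (p - b w)
      omega
    omega

/-- a token in a poor region -/
theorem exists_poor [NeZero n] {b : Fin (k + 1) → ZMod n} {L : ℕ} (hL0 : 0 < L)
    (hL : L * (3 * (k + 1)) ≤ n)
    (hb : ∀ z, ∃ w, ∃ d : ℕ, 1 ≤ d ∧ d ≤ k ∧ b w = b z + (d : ZMod n)) :
    ∃ z, L * ((Nr b z).card + 1) ≤ k + 1 := by
  classical
  obtain ⟨i, hi, h⟩ := poor hL0 hL b 0
  set y : ZMod n := 0 + ((i * (3 * (k + 1)) : ℕ) : ZMod n) with hy
  obtain ⟨z, j, hj1, hjk, hz⟩ := window_nonempty hb (y + (k : ZMod n))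
  refine ⟨z, (Nat.mul_le_mul_left L ?_).trans h⟩
  have h1 : z ∉ Nr b z := fun h => (mem_Nr.1 h).1 rfl
  rw [← Finset.card_insert_of_notMem h1]
  apply Finset.card_le_card
  intro t ht
  have hd : Near b z t := by
    rcases Finset.mem_insert.1 ht with rfl | ht
    · exact ⟨0, by simp, by simp⟩
    · exact (mem_Nr.1 ht).2
  obtain ⟨d, hd, h2⟩ := hd
  refine mem_Wn.2 ⟨(k + j + d).toNat, by omega, ?_⟩
  have h3 : (((k + j + d).toNat : ℕ) : ZMod n) = ((k + j + d : ℤ) : ZMod n) := by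
    rw [← Int.cast_natCast, Int.toNat_of_nonneg (by omega)]
  rw [h3, h2, hz]
  push_cast
  ring

theorem arith {k T0 Tm : ℕ} (hk : 99 ≤ k) (h1 : 33 * (T0 + 1) ≤ k + 1)
    (h2 : 100 * (Tm + 1) ≤ 2 * (k + 1) + 200 * (4 * T0 + 2)) :
    2 * k + k * Tm ≤ (k - (3 * T0 + 1)) * (k - (4 + 2 * Tm)) := by
  obtain ⟨a, ha⟩ : ∃ a, a = k - (3 * T0 + 1) := ⟨_, rfl⟩
  obtain ⟨c, hc⟩ : ∃ c, c = k - (4 + 2 * Tm) := ⟨_, rfl⟩
  rw [← ha, ← hc]
  have h3 : 30 * k + 63 ≤ 33 * a := by omega
  have h4 : 3300 * Tm + 15634 ≤ 866 * k := by omega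
  have h5 : 1568 * k + 18068 ≤ 3300 * c := by omega
  have h6 : (30 * k + 63) * (1568 * k + 18068) ≤ 33 * a * (3300 * c) := Nat.mul_le_mul h3 h5
  have h7 : k * (3300 * Tm + 15634) ≤ k * (866 * k) := Nat.mul_le_mul_left _ h4
  nlinarith

theorem main_aux (hk : 0 < k) (hn : 100 * (k + 1) ≤ n) {b : Fin (k + 1) → ZMod n}
    (hb : Function.Injective b) : ∃ z, (Om b z).card ≤ Phi n (k + 1) b := by
  classical
  have hkn : k < n := by omega
  have : NeZero n := ⟨by omega⟩
  by_cases hfree : ∃ z, ∀ w, ∀ d : ℕ, 1 ≤ d → d ≤ k → b w ≠ b z + (d : ZMod n)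
  · obtain ⟨z, hz⟩ := hfree
    exact ⟨z, case_free hz⟩
  push Not at hfree
  obtain ⟨z, hz⟩ := exists_poor (L := 33) (by norm_num) (by omega) hfree
  refine ⟨z, ?_⟩
  by_cases hD : 4 * (Nr b z).card + 2 ≤ (Dz b z).card
  · exact case_defects hkn hb hD
  have hDf := card_Df b z
  have hk99 : 99 ≤ k := by
    have h1 := sum_Wn (q := 100) (W := k + 1) hn b 0 Finset.univ
    have h2 : ∀ i ∈ Finset.range 100,
        1 ≤ (Finset.univ ∩ Wn b (0 + ((i * (k + 1) : ℕ) : ZMod n)) (k + 1)).card := by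
      intro i _
      obtain ⟨w, j, -, hjk, hw⟩ := window_nonempty hfree (0 + ((i * (k + 1) : ℕ) : ZMod n))
      exact Finset.card_pos.2 ⟨w, Finset.mem_inter.2 ⟨Finset.mem_univ _,
        mem_Wn.2 ⟨j, by omega, hw⟩⟩⟩
    have h3 := Finset.card_nsmul_le_sum _ _ _ h2
    rw [Finset.card_range, smul_eq_mul] at h3
    rw [Finset.card_univ, Fintype.card_fin] at h1
    omega
  set Tm := Finset.univ.sup fun x => (Nr b x).card with hTm
  have hTm1 : ∀ x, (Nr b x).card ≤ Tm := fun x =>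
    Finset.le_sup (f := fun x => (Nr b x).card) (Finset.mem_univ x)
  have hTm2 : 100 * (Tm + 1) ≤ 2 * (k + 1) + 200 * (4 * (Nr b z).card + 2) := by
    obtain ⟨x, -, hx⟩ := Finset.exists_mem_eq_sup (Finset.univ : Finset (Fin (k + 1)))
      ⟨0, Finset.mem_univ _⟩ (fun x => (Nr b x).card)
    have h1 : Tm = (Nr b x).card := hx
    have h2 := Nr_bound b x
    have h3 := win_bound hb (q := 100) (by norm_num) hn (b x - (k : ZMod n))
    have h4 := win_bound hb (q := 100) (by norm_num) hn (b x + 1)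
    omega
  exact case_small hkn hb hk le_rfl hTm1 (arith hk99 hz hTm2)

end switching

/-- `Ninj n k`: the minimum of `Phi n k a` over all vectors `a` with pairwise distinct entries. -/
noncomputable def Ninj (n k : ℕ) : ℕ := sInf (Phi n k '' {a | Function.Injective a})

theorem Ninj_le (n k : ℕ) (hn : k + 1 ≤ n)
    (h : ∀ b : Fin (k + 1) → ZMod n, Function.Injective b → ∃ j : Fin (k + 1),
      Phi n k (b ∘ j.succAbove) ≤ Phi n (k + 1) b) :
    Ninj n k ≤ Ninj n (k + 1) := by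
  have hne : (Phi n (k + 1) '' {a | Function.Injective a}).Nonempty := by
    refine ⟨_, fun i => (((i : Fin (k + 1)) : ℕ) : ZMod n), ?_, rfl⟩
    intro r r' hr
    apply Fin.ext
    have h1 := (ZMod.natCast_eq_natCast_iff' _ _ _).1 hr
    rwa [Nat.mod_eq_of_lt (lt_of_lt_of_le r.2 hn), Nat.mod_eq_of_lt (lt_of_lt_of_le r'.2 hn)] at h1
  obtain ⟨b, hb, hb'⟩ := Nat.sInf_mem hne
  obtain ⟨j, hj⟩ := h b hb
  rw [Ninj, Ninj, ← hb']
  have hb : Function.Injective b := hb
  have h1 : sInf (Phi n k '' {a | Function.Injective a}) ≤ Phi n k (b ∘ j.succAbove) :=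
    Nat.sInf_le ⟨_, hb.comp (Fin.succAbove_right_injective (p := j)), rfl⟩
  exact h1.trans hj

/-- From every vector of `k + 1` pairwise distinct entries of `ZMod n`, `n ≥ 100 (k + 1)`, one
entry can be removed without increasing the count. -/
theorem result : ∀ n k : ℕ, 0 < k → 100 * (k + 1) ≤ n →
    (∀ b : Fin (k + 1) → ZMod n, Function.Injective b → ∃ j : Fin (k + 1),
      Phi n k (b ∘ j.succAbove) ≤ Phi n (k + 1) b) ∧ Ninj n k ≤ Ninj n (k + 1) := by
  intro n k hk hn
  have h : ∀ b : Fin (k + 1) → ZMod n, Function.Injective b → ∃ j : Fin (k + 1),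
      Phi n k (b ∘ j.succAbove) ≤ Phi n (k + 1) b := by
    intro b hb
    obtain ⟨z, hz⟩ := main_aux hk hn hb
    exact ⟨z, (Phi_le_Om b z).trans hz⟩
  exact ⟨h, Ninj_le n k (by omega) h⟩

end Pool.Agent.Lib.MP_2baa92_co.DistinctLinear
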