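import Mathlib

set_option autoImplicit false

namespace Pool.Agent.Lib.MP_2baa92_co.MostlyDistinct

/-- `Phi n k a`: the number of permutations `π` of the `k` indices for which the elements
`a (π 1) + 1, ..., a (π k) + k` of `ZMod n` are pairwise distinct (indices are `0, ..., k - 1`
in Lean, so the summand at index `i` is `i + 1`). -/
noncomputable def Phi (n k : ℕ) (a : Fin k → ZMod n) : ℕ :=
  Nat.card {π : Equiv.Perm (Fin k) //
    Function.Injective fun i : Fin k => a (π i) + (((i : ℕ) + 1 : ℕ) : ZMod n)}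

theorem tri_count {α : Type*} [DecidableEq α] (R B : Finset α) (N : α → Finset α) (s : ℤ)
    (hs : 0 ≤ s) (hN : ∀ r ∈ R, N r ⊆ R) (hNs : ∀ r ∈ R, s ≤ ((N r).card : ℤ))
    (hB : B ⊆ R) (hBs : s ≤ (B.card : ℤ)) :
    s * (s ^ 2 + (R.card : ℤ) * s - (R.card : ℤ) ^ 2) ≤
      ∑ ρ ∈ B, ∑ j ∈ N ρ, (((N j).filter fun p => ρ ∈ N p).card : ℤ) := by
  classical
  set M : α → Finset α := fun ρ => R.filter fun p => ρ ∈ N p with hM
  have h1 : ∀ ρ ∈ B, ∀ j ∈ N ρ, s + ((M ρ).card : ℤ) - (R.card : ℤ) ≤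
      (((N j).filter fun p => ρ ∈ N p).card : ℤ) := by
    intro ρ hρ j hj
    have hjR := hN ρ (hB hρ) hj
    have h2 : (N j).filter (fun p => ρ ∈ N p) = N j ∩ M ρ := by
      ext p
      simp only [hM, Finset.mem_filter, Finset.mem_inter]
      constructor
      · rintro ⟨h, h'⟩
        exact ⟨h, hN j hjR h, h'⟩
      · rintro ⟨h, -, h'⟩
        exact ⟨h, h'⟩
    have h3 := Finset.card_union_add_card_inter (N j) (M ρ)
    have h4 : (N j ∪ M ρ).card ≤ R.card :=
      Finset.card_le_card (Finset.union_subset (hN j hjR) (Finset.filter_subset _ _))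
    have h5 := hNs j hjR
    rw [h2]
    omega
  have h2 : ∀ ρ ∈ B, s * (s + ((M ρ).card : ℤ) - (R.card : ℤ)) ≤
      ∑ j ∈ N ρ, (((N j).filter fun p => ρ ∈ N p).card : ℤ) := by
    intro ρ hρ
    by_cases hc : 0 ≤ s + ((M ρ).card : ℤ) - (R.card : ℤ)
    · calc s * (s + ((M ρ).card : ℤ) - (R.card : ℤ))
          ≤ ((N ρ).card : ℤ) * (s + ((M ρ).card : ℤ) - (R.card : ℤ)) :=
            mul_le_mul_of_nonneg_right (hNs ρ (hB hρ)) hc
        _ = ∑ j ∈ N ρ, (s + ((M ρ).card : ℤ) - (R.card : ℤ)) := by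
            rw [Finset.sum_const, nsmul_eq_mul]
        _ ≤ _ := Finset.sum_le_sum (h1 ρ hρ)
    · have h3 : 0 ≤ ∑ j ∈ N ρ, (((N j).filter fun p => ρ ∈ N p).card : ℤ) :=
        Finset.sum_nonneg fun _ _ => Int.natCast_nonneg _
      nlinarith
  have h3 : (R.card : ℤ) * s ≤ ∑ ρ ∈ R, ((M ρ).card : ℤ) := by
    have h4 : ∑ ρ ∈ R, (M ρ).card = ∑ p ∈ R, (N p).card := by
      simp_rw [hM, Finset.card_filter]
      rw [Finset.sum_comm]
      refine Finset.sum_congr rfl fun p hp => ?_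
      rw [← Finset.card_filter]
      congr 1
      ext ρ
      simp only [Finset.mem_filter]
      exact ⟨fun h => h.2, fun h => ⟨hN p hp h, h⟩⟩
    calc (R.card : ℤ) * s = ∑ _p ∈ R, s := by rw [Finset.sum_const, nsmul_eq_mul]
      _ ≤ ∑ p ∈ R, ((N p).card : ℤ) := Finset.sum_le_sum hNs
      _ = ∑ ρ ∈ R, ((M ρ).card : ℤ) := by exact_mod_cast h4.symm
  have h4 : ∑ ρ ∈ R \ B, ((M ρ).card : ℤ) ≤ ((R.card : ℤ) - B.card) * R.card := by
    calc ∑ ρ ∈ R \ B, ((M ρ).card : ℤ) ≤ ∑ _ρ ∈ R \ B, (R.card : ℤ) :=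
          Finset.sum_le_sum fun ρ _ => by
            exact_mod_cast Finset.card_le_card (Finset.filter_subset _ _)
      _ = ((R.card : ℤ) - B.card) * R.card := by
          rw [Finset.sum_const, nsmul_eq_mul, Finset.card_sdiff_of_subset hB,
            Nat.cast_sub (Finset.card_le_card hB)]
  have h5 : ∑ ρ ∈ R \ B, ((M ρ).card : ℤ) + ∑ ρ ∈ B, ((M ρ).card : ℤ) =
      ∑ ρ ∈ R, ((M ρ).card : ℤ) := Finset.sum_sdiff hB
  have h6 : s * ((B.card : ℤ) * (s - R.card) + ∑ ρ ∈ B, ((M ρ).card : ℤ)) ≤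
      ∑ ρ ∈ B, ∑ j ∈ N ρ, (((N j).filter fun p => ρ ∈ N p).card : ℤ) := by
    refine le_trans (le_of_eq ?_) (Finset.sum_le_sum h2)
    rw [← Finset.mul_sum]
    congr 1
    have : ∀ ρ ∈ B, s + ((M ρ).card : ℤ) - (R.card : ℤ) = (s - R.card) + ((M ρ).card : ℤ) := by
      intro ρ _
      ring
    rw [Finset.sum_congr rfl this, Finset.sum_add_distrib, Finset.sum_const, nsmul_eq_mul]
  refine le_trans ?_ h6
  apply mul_le_mul_of_nonneg_left _ hs
  nlinarith

section switching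

variable {n k : ℕ}

/-- the column of the row `r` under the placement `g` (rows to tokens), where the last row is
put at height `e` -/
def colE (b : Fin (k + 1) → ZMod n) (e : ZMod n) (g : Equiv.Perm (Fin (k + 1)))
    (r : Fin (k + 1)) : ZMod n :=
  b (g r) + (if r = Fin.last k then e else ((r : ℕ) : ZMod n))

theorem colE_last (b : Fin (k + 1) → ZMod n) (e : ZMod n) (g : Equiv.Perm (Fin (k + 1))) :
    colE b e g (Fin.last k) = b (g (Fin.last k)) + e := by
  simp [colE]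

theorem colE_ne (b : Fin (k + 1) → ZMod n) (e : ZMod n) (g : Equiv.Perm (Fin (k + 1)))
    {r : Fin (k + 1)} (h : r ≠ Fin.last k) : colE b e g r = b (g r) + ((r : ℕ) : ZMod n) := by
  simp [colE, h]

open Classical in
/-- valid placements with the last row at height `e` -/
noncomputable def T (b : Fin (k + 1) → ZMod n) (e : ZMod n) :
    Finset (Equiv.Perm (Fin (k + 1))) :=
  Finset.univ.filter fun g => Function.Injective (colE b e g)

theorem mem_T {b : Fin (k + 1) → ZMod n} {e : ZMod n} {g : Equiv.Perm (Fin (k + 1))} :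
    g ∈ T b e ↔ Function.Injective (colE b e g) := by
  simp [T]

open Classical in
/-- hand states with hand `z` -/
noncomputable def Om (b : Fin (k + 1) → ZMod n) (z : Fin (k + 1)) :
    Finset (Equiv.Perm (Fin (k + 1))) :=
  Finset.univ.filter fun g => g (Fin.last k) = z ∧
    ∀ r r', r ≠ Fin.last k → r' ≠ Fin.last k →
      b (g r) + ((r : ℕ) : ZMod n) = b (g r') + ((r' : ℕ) : ZMod n) → r = r'

theorem mem_Om {b : Fin (k + 1) → ZMod n} {z : Fin (k + 1)} {g : Equiv.Perm (Fin (k + 1))} :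
    g ∈ Om b z ↔ g (Fin.last k) = z ∧
    ∀ r r', r ≠ Fin.last k → r' ≠ Fin.last k →
      b (g r) + ((r : ℕ) : ZMod n) = b (g r') + ((r' : ℕ) : ZMod n) → r = r' := by
  simp [Om]

theorem row_inj (hn : k < n) {r r' : Fin (k + 1)}
    (h : ((r : ℕ) : ZMod n) = ((r' : ℕ) : ZMod n)) : r = r' := by
  apply Fin.ext
  have h1 := (ZMod.natCast_eq_natCast_iff' _ _ _).1 h
  rwa [Nat.mod_eq_of_lt (lt_of_le_of_lt (Nat.lt_succ_iff.1 r.2) hn),
    Nat.mod_eq_of_lt (lt_of_le_of_lt (Nat.lt_succ_iff.1 r'.2) hn)] at h1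

/-- a placement of the tokens other than `z`, together with `z` on the last row -/
def lift (z : Fin (k + 1)) (π : Equiv.Perm (Fin k)) : Equiv.Perm (Fin (k + 1)) :=
  finSuccEquivLast.trans ((Equiv.optionCongr π).trans (finSuccEquiv' z).symm)

theorem lift_last (z : Fin (k + 1)) (π : Equiv.Perm (Fin k)) : lift z π (Fin.last k) = z := by
  simp [lift]

theorem lift_castSucc (z : Fin (k + 1)) (π : Equiv.Perm (Fin k)) (i : Fin k) :
    lift z π i.castSucc = z.succAbove (π i) := by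
  simp [lift]

theorem Phi_le_Om (b : Fin (k + 1) → ZMod n) (z : Fin (k + 1)) :
    Phi n k (b ∘ z.succAbove) ≤ (Om b z).card := by
  classical
  rw [Phi, Nat.card_eq_fintype_card, Fintype.card_subtype]
  refine Finset.card_le_card_of_injOn (lift z) ?_ ?_
  · intro π hπ
    have hπ := (Finset.mem_filter.1 (Finset.mem_coe.1 hπ)).2
    apply Finset.mem_coe.2
    rw [mem_Om]
    refine ⟨lift_last z π, ?_⟩
    intro r r' hr hr' h
    obtain ⟨i, rfl⟩ := Fin.exists_castSucc_eq.2 hr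
    obtain ⟨i', rfl⟩ := Fin.exists_castSucc_eq.2 hr'
    rw [lift_castSucc, lift_castSucc] at h
    congr 1
    apply hπ
    simp only [Function.comp, Nat.cast_add, Nat.cast_one]
    simp only [Fin.val_castSucc] at h
    rw [← add_assoc, ← add_assoc, h]
  · intro π _ π' _ h
    ext i
    congr 1
    apply Fin.succAbove_right_injective (p := z)
    rw [← lift_castSucc, ← lift_castSucc, h]

theorem T_top (b : Fin (k + 1) → ZMod n) : (T b (k : ZMod n)).card = Phi n (k + 1) b := by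
  classical
  rw [Phi, Nat.card_eq_fintype_card, Fintype.card_subtype, T]
  congr 1
  apply Finset.filter_congr
  intro π _
  have h1 : (fun i : Fin (k + 1) => b (π i) + (((i : ℕ) + 1 : ℕ) : ZMod n)) =
      (fun x => x + 1) ∘ colE b (k : ZMod n) π := by
    funext i
    by_cases hi : i = Fin.last k
    · subst hi
      simp [colE, add_assoc]
    · simp [colE, hi, add_assoc]
  rw [h1]
  exact ((add_left_injective (1 : ZMod n)).of_comp_iff _).symm

theorem T_bot (b : Fin (k + 1) → ZMod n) : (T b (-1)).card = Phi n (k + 1) b := by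
  classical
  rw [Phi, Nat.card_eq_fintype_card, Fintype.card_subtype]
  set σ : Equiv.Perm (Fin (k + 1)) := (finRotate (k + 1))⁻¹ with hσ
  have hσ0 : σ 0 = Fin.last k := by
    rw [hσ, Equiv.Perm.inv_eq_iff_eq, finRotate_last]
  have hσs : ∀ i : Fin k, σ i.succ = i.castSucc := by
    intro i
    rw [hσ, Equiv.Perm.inv_eq_iff_eq]
    apply Fin.ext
    rw [coe_finRotate_of_ne_last (Fin.castSucc_lt_last i).ne]
    simp
  refine Finset.card_bij (fun h _ => h * σ) ?_ ?_ ?_
  · intro h hh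
    rw [mem_T] at hh
    rw [Finset.mem_filter]
    refine ⟨Finset.mem_univ _, ?_⟩
    have h1 : (fun i : Fin (k + 1) => b ((h * σ) i) + (((i : ℕ) + 1 : ℕ) : ZMod n)) =
        (fun x => x + 2) ∘ colE b (-1) h ∘ σ := by
      funext i
      induction i using Fin.cases with
      | zero =>
        simp only [Function.comp, Equiv.Perm.mul_apply, hσ0, colE_last]
        push_cast
        simp
        ring
      | succ i =>
        simp only [Function.comp, Equiv.Perm.mul_apply, hσs,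
          colE_ne b (-1) h (Fin.castSucc_lt_last i).ne]
        push_cast
        simp
        ring
    rw [h1]
    exact ((add_left_injective (2 : ZMod n)).comp hh).comp σ.injective
  · intro h _ h' _ hh
    exact mul_right_cancel hh
  · intro π hπ
    refine ⟨π * σ⁻¹, ?_, by simp⟩
    rw [mem_T]
    have hπ := (Finset.mem_filter.1 hπ).2
    have h1 : (fun x => x + 2) ∘ colE b (-1) (π * σ⁻¹) =
        (fun i : Fin (k + 1) => b (π i) + (((i : ℕ) + 1 : ℕ) : ZMod n)) ∘ (σ⁻¹ : Equiv.Perm _) := by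
      have hinv : ∀ x, (σ⁻¹ : Equiv.Perm _) (σ x) = x := fun x => σ.symm_apply_apply x
      funext r
      obtain ⟨i, rfl⟩ := σ.surjective r
      simp only [Function.comp, hinv]
      induction i using Fin.cases with
      | zero =>
        rw [hσ0, colE_last, Equiv.Perm.mul_apply, ← hσ0, hinv]
        push_cast
        simp
        ring
      | succ i =>
        rw [hσs, colE_ne b (-1) _ (Fin.castSucc_lt_last i).ne, Equiv.Perm.mul_apply, ← hσs, hinv,
          hσs]
        push_cast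
        simp
        ring
    have h2 : Function.Injective ((fun x : ZMod n => x + 2) ∘ colE b (-1) (π * σ⁻¹)) := by
      rw [h1]
      exact hπ.comp (σ⁻¹ : Equiv.Perm _).injective
    exact Function.Injective.of_comp h2

/-- the labels of `x` and `t` differ by at most `k` -/
def Near (b : Fin (k + 1) → ZMod n) (x t : Fin (k + 1)) : Prop :=
  ∃ d : ℤ, d.natAbs ≤ k ∧ b t = b x + (d : ZMod n)

open Classical in
/-- the tokens other than `x` with label near the one of `x` -/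
noncomputable def Nr (b : Fin (k + 1) → ZMod n) (x : Fin (k + 1)) : Finset (Fin (k + 1)) :=
  Finset.univ.filter fun t => t ≠ x ∧ Near b x t

theorem mem_Nr {b : Fin (k + 1) → ZMod n} {x t : Fin (k + 1)} :
    t ∈ Nr b x ↔ t ≠ x ∧ Near b x t := by
  simp [Nr]

theorem near_of_eq {b : Fin (k + 1) → ZMod n} {x t r r' : Fin (k + 1)}
    (h : b x + ((r : ℕ) : ZMod n) = b t + ((r' : ℕ) : ZMod n)) : Near b x t := by
  refine ⟨(r : ℤ) - (r' : ℤ), ?_, ?_⟩
  · have h1 := r.2
    have h2 := r'.2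
    omega
  · push_cast
    linear_combination -h

/-- the rows other than the last one -/
def Rw (k : ℕ) : Finset (Fin (k + 1)) := Finset.univ.erase (Fin.last k)

theorem mem_Rw {r : Fin (k + 1)} : r ∈ Rw k ↔ r ≠ Fin.last k := by
  simp [Rw]

theorem card_Rw : (Rw k).card = k := by
  rw [Rw, Finset.card_erase_of_mem (Finset.mem_univ _), Finset.card_univ, Fintype.card_fin]
  rfl

open Classical in
/-- rows whose token is free at height `e` -/
noncomputable def U (b : Fin (k + 1) → ZMod n) (e : ZMod n) (g : Equiv.Perm (Fin (k + 1))) :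
    Finset (Fin (k + 1)) :=
  (Rw k).filter fun i => ∀ r ∈ Rw k, b (g r) + ((r : ℕ) : ZMod n) ≠ b (g i) + e

open Classical in
/-- rows at which `x` does not fit (a column of another row is hit) -/
noncomputable def NF (b : Fin (k + 1) → ZMod n) (g : Equiv.Perm (Fin (k + 1)))
    (x : Fin (k + 1)) : Finset (Fin (k + 1)) :=
  (Rw k).filter fun i => ∃ r ∈ Rw k, g r ≠ x ∧
    b (g r) + ((r : ℕ) : ZMod n) = b x + ((i : ℕ) : ZMod n)

theorem card_NF (hn : k < n) (b : Fin (k + 1) → ZMod n) (g : Equiv.Perm (Fin (k + 1)))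
    (x : Fin (k + 1)) : (NF b g x).card ≤ (Nr b x).card := by
  classical
  have h : ∀ i ∈ NF b g x, ∃ r, g r ∈ Nr b x ∧
      b (g r) + ((r : ℕ) : ZMod n) = b x + ((i : ℕ) : ZMod n) := by
    intro i hi
    obtain ⟨-, r, -, hrx, hr⟩ := Finset.mem_filter.1 hi
    exact ⟨r, mem_Nr.2 ⟨hrx, near_of_eq hr.symm⟩, hr⟩
  choose! f hf using h
  refine Finset.card_le_card_of_injOn (fun i => g (f i)) (fun i hi => (hf i hi).1) ?_
  intro i hi i' hi' h
  have h1 := (hf i hi).2
  have h2 := (hf i' hi').2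
  have h3 : f i = f i' := g.injective h
  rw [h3] at h1
  exact row_inj hn (add_left_cancel (h1.symm.trans h2))

open Classical in
/-- the rows `i` for which the end move succeeds -/
noncomputable def Mv (b : Fin (k + 1) → ZMod n) (e : ZMod n) (g : Equiv.Perm (Fin (k + 1))) :
    Finset (Fin (k + 1)) :=
  (Rw k).filter fun i => g * Equiv.swap (Fin.last k) i ∈ T b e

/-- height `e` is an end: no row has height `e`, and a row and `e` differ by at most `k` -/
def IsEnd (n k : ℕ) (e : ZMod n) : Prop :=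
  (∀ r ∈ Rw k, ((r : ℕ) : ZMod n) ≠ e) ∧
  ∀ r ∈ Rw k, ∃ d : ℤ, d.natAbs ≤ k ∧ ((r : ℕ) : ZMod n) - e = (d : ZMod n)

theorem isEnd_top (hn : k < n) : IsEnd n k (k : ZMod n) := by
  refine ⟨fun r hr h => ?_, fun r hr => ?_⟩
  · rw [mem_Rw] at hr
    apply hr
    apply row_inj hn
    rw [h, Fin.val_last]
  · refine ⟨(r : ℤ) - k, ?_, by push_cast; ring⟩
    have := r.2
    omega

theorem isEnd_bot (hn : k < n) : IsEnd n k (-1 : ZMod n) := by
  refine ⟨fun r hr h => ?_, fun r hr => ?_⟩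
  · rw [mem_Rw] at hr
    have h0 : (((r : ℕ) + 1 : ℕ) : ZMod n) = 0 := by
      push_cast
      rw [h]
      ring
    rw [ZMod.natCast_eq_zero_iff] at h0
    have h1 := Nat.le_of_dvd (by omega) h0
    have h2 := Fin.lt_last_iff_ne_last.2 hr
    have h3 : (r : ℕ) < k := h2
    omega
  · refine ⟨(r : ℤ) + 1, ?_, by push_cast; ring⟩
    rw [mem_Rw] at hr
    have h2 := Fin.lt_last_iff_ne_last.2 hr
    have h3 : (r : ℕ) < k := h2
    omega

theorem end_move {b : Fin (k + 1) → ZMod n} {e : ZMod n} {z : Fin (k + 1)} {g : Equiv.Perm (Fin (k + 1))} (hg : g ∈ Om b z) {i : Fin (k + 1)}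
    (hi : i ∈ U b e g) (h2 : ∀ r ∈ Rw k, r ≠ i → b (g r) + ((r : ℕ) : ZMod n) ≠
      b z + ((i : ℕ) : ZMod n)) (h3 : b (g i) + e ≠ b z + ((i : ℕ) : ZMod n)) :
    i ∈ Mv b e g := by
  classical
  obtain ⟨hgz, hinj⟩ := mem_Om.1 hg
  obtain ⟨hiR, hU⟩ := Finset.mem_filter.1 hi
  rw [Mv, Finset.mem_filter]
  refine ⟨hiR, ?_⟩
  have hil := mem_Rw.1 hiR
  rw [mem_T]
  have c1 : colE b e (g * Equiv.swap (Fin.last k) i) (Fin.last k) = b (g i) + e := by
    rw [colE_last, Equiv.Perm.mul_apply, Equiv.swap_apply_left]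
  have c2 : colE b e (g * Equiv.swap (Fin.last k) i) i = b z + ((i : ℕ) : ZMod n) := by
    rw [colE_ne _ _ _ hil, Equiv.Perm.mul_apply, Equiv.swap_apply_right, hgz]
  have c3 : ∀ r, r ≠ Fin.last k → r ≠ i →
      colE b e (g * Equiv.swap (Fin.last k) i) r = b (g r) + ((r : ℕ) : ZMod n) := by
    intro r hr hri
    rw [colE_ne _ _ _ hr, Equiv.Perm.mul_apply, Equiv.swap_apply_of_ne_of_ne hr hri]
  intro r r' h
  by_cases hr : r = Fin.last k
  · subst hr
    by_cases hr' : r' = Fin.last k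
    · exact hr'.symm
    · by_cases hi' : r' = i
      · subst hi'
        rw [c1, c2] at h
        exact absurd h h3
      · rw [c1, c3 r' hr' hi'] at h
        exact absurd h.symm (hU r' (mem_Rw.2 hr'))
  · by_cases hri : r = i
    · subst hri
      by_cases hr' : r' = Fin.last k
      · subst hr'
        rw [c1, c2] at h
        exact absurd h.symm h3
      · by_cases hi' : r' = r
        · exact hi'.symm
        · rw [c2, c3 r' hr' hi'] at h
          exact absurd h.symm (h2 r' (mem_Rw.2 hr') hi')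
    · by_cases hr' : r' = Fin.last k
      · subst hr'
        rw [c1, c3 r hr hri] at h
        exact absurd h (hU r (mem_Rw.2 hr))
      · by_cases hi' : r' = i
        · subst hi'
          rw [c2, c3 r hr hri] at h
          exact absurd h (h2 r (mem_Rw.2 hr) hri)
        · rw [c3 r hr hri, c3 r' hr' hi'] at h
          exact hinj r r' hr hr' h

/-- the number of successful end moves is at least the number of free tokens minus `2 T(z)` -/
theorem U_le_Mv (hn : k < n) {b : Fin (k + 1) → ZMod n} {e : ZMod n} (he : IsEnd n k e)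
    {z : Fin (k + 1)} {g : Equiv.Perm (Fin (k + 1))} (hg : g ∈ Om b z) :
    (U b e g).card ≤ (Mv b e g).card + 2 * (Nr b z).card := by
  classical
  obtain ⟨hgz, hinj⟩ := mem_Om.1 hg
  have hne : ∀ r ∈ Rw k, g r ≠ z := by
    intro r hr h
    rw [← hgz] at h
    exact mem_Rw.1 hr (g.injective h)
  set Y : Finset (Fin (k + 1)) := (Rw k).filter fun i => b (g i) + e = b z + ((i : ℕ) : ZMod n)
    with hY
  have hYc : Y.card ≤ (Nr b z).card := by
    refine Finset.card_le_card_of_injOn (fun i => g i) ?_ (g.injective.injOn)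
    intro i hi
    obtain ⟨hiR, hi⟩ := Finset.mem_filter.1 (Finset.mem_coe.1 hi)
    refine Finset.mem_coe.2 (mem_Nr.2 ⟨hne i hiR, ?_⟩)
    obtain ⟨d, hd, hd'⟩ := he.2 i hiR
    exact ⟨d, hd, by rw [← hd']; linear_combination hi⟩
  have hsub : U b e g ⊆ Mv b e g ∪ (NF b g z ∪ Y) := by
    intro i hi
    by_cases h2 : ∀ r ∈ Rw k, r ≠ i → b (g r) + ((r : ℕ) : ZMod n) ≠ b z + ((i : ℕ) : ZMod n)
    · by_cases h3 : b (g i) + e ≠ b z + ((i : ℕ) : ZMod n)
      · exact Finset.mem_union_left _ (end_move hg hi h2 h3)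
      · push Not at h3
        exact Finset.mem_union_right _ (Finset.mem_union_right _
          (Finset.mem_filter.2 ⟨(Finset.mem_filter.1 hi).1, h3⟩))
    · push Not at h2
      obtain ⟨r, hr, -, h⟩ := h2
      exact Finset.mem_union_right _ (Finset.mem_union_left _
        (Finset.mem_filter.2 ⟨(Finset.mem_filter.1 hi).1, r, hr, hne r hr, h⟩))
  have h1 := Finset.card_le_card hsub
  have h2 := Finset.card_union_le (Mv b e g) (NF b g z ∪ Y)
  have h3 := Finset.card_union_le (NF b g z) Y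
  have h4 := card_NF hn b g z
  omega

/-- the end moves are injective -/
theorem sum_Mv (b : Fin (k + 1) → ZMod n) (e : ZMod n) (z : Fin (k + 1)) :
    ∑ g ∈ Om b z, (Mv b e g).card ≤ (T b e).card := by
  classical
  rw [← Finset.card_sigma]
  refine Finset.card_le_card_of_injOn (fun p => p.1 * Equiv.swap (Fin.last k) p.2) ?_ ?_
  · rintro ⟨g, i⟩ hp
    rw [Finset.mem_coe, Finset.mem_sigma] at hp
    exact Finset.mem_coe.2 (Finset.mem_filter.1 hp.2).2
  · rintro ⟨g, i⟩ hp ⟨g', i'⟩ hp' h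
    rw [Finset.mem_coe, Finset.mem_sigma] at hp hp'
    simp only at h hp hp'
    have hz : ∀ g : Equiv.Perm (Fin (k + 1)), ∀ i, g ∈ Om b z →
        (g * Equiv.swap (Fin.last k) i) i = z := by
      intro g i hg
      rw [Equiv.Perm.mul_apply, Equiv.swap_apply_right]
      exact (mem_Om.1 hg).1
    have h1 := hz g i hp.1
    have h2 := hz g' i' hp'.1
    rw [← h] at h2
    have h3 : i = i' := (g * Equiv.swap (Fin.last k) i).injective (h1.trans h2.symm)
    subst h3
    have h4 : g = g' := mul_right_cancel h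
    subst h4
    rfl

open Classical in
/-- the occupied columns -/
noncomputable def Cg (b : Fin (k + 1) → ZMod n) (g : Equiv.Perm (Fin (k + 1))) :
    Finset (ZMod n) :=
  (Rw k).image fun r => b (g r) + ((r : ℕ) : ZMod n)

theorem mem_Cg {b : Fin (k + 1) → ZMod n} {g : Equiv.Perm (Fin (k + 1))} {c : ZMod n} :
    c ∈ Cg b g ↔ ∃ r ∈ Rw k, b (g r) + ((r : ℕ) : ZMod n) = c := by
  simp [Cg]

theorem card_Cg {b : Fin (k + 1) → ZMod n} {z : Fin (k + 1)} {g : Equiv.Perm (Fin (k + 1))}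
    (hg : g ∈ Om b z) : (Cg b g).card = k := by
  classical
  rw [Cg, Finset.card_image_of_injOn, card_Rw]
  intro r hr r' hr' h
  exact (mem_Om.1 hg).2 r r' (mem_Rw.1 hr) (mem_Rw.1 hr') h

open Classical in
/-- the rows at which the token `x` fits -/
noncomputable def Ft (b : Fin (k + 1) → ZMod n) (g : Equiv.Perm (Fin (k + 1)))
    (x : Fin (k + 1)) : Finset (Fin (k + 1)) :=
  (Rw k).filter fun j => b x + ((j : ℕ) : ZMod n) ∉ Cg b g

theorem mem_Ft {b : Fin (k + 1) → ZMod n} {g : Equiv.Perm (Fin (k + 1))} {x j : Fin (k + 1)} :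
    j ∈ Ft b g x ↔ j ∈ Rw k ∧ b x + ((j : ℕ) : ZMod n) ∉ Cg b g := by
  simp [Ft]

open Classical in
/-- the labels that are blocked at both ends -/
noncomputable def Lk (b : Fin (k + 1) → ZMod n) (g : Equiv.Perm (Fin (k + 1))) :
    Finset (ZMod n) :=
  ((Rw k).image fun i => b (g i)).filter fun y => y + (k : ZMod n) ∈ Cg b g ∧ y - 1 ∈ Cg b g

/-- the number of labels is at most the number of doubly blocked labels plus the free tokens -/
theorem card_Lk {b : Fin (k + 1) → ZMod n} {z : Fin (k + 1)} {g : Equiv.Perm (Fin (k + 1))}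
    (hg : g ∈ Om b z) :
    (Finset.univ.image b).card ≤
      (Lk b g).card + (U b (k : ZMod n) g).card + (U b (-1) g).card + 1 := by
  classical
  have hsub : Finset.univ.image b ⊆ ((Lk b g ∪ (U b (k : ZMod n) g).image fun i => b (g i)) ∪
      (U b (-1) g).image fun i => b (g i)) ∪ {b z} := by
    intro y hy
    obtain ⟨t, -, rfl⟩ := Finset.mem_image.1 hy
    obtain ⟨i, rfl⟩ := g.surjective t
    by_cases hi : i = Fin.last k
    · subst hi
      rw [(mem_Om.1 hg).1]
      simp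
    · have hiR := mem_Rw.2 hi
      by_cases h1 : b (g i) + (k : ZMod n) ∈ Cg b g
      · by_cases h2 : b (g i) - 1 ∈ Cg b g
        · have : b (g i) ∈ Lk b g := Finset.mem_filter.2
            ⟨Finset.mem_image.2 ⟨i, hiR, rfl⟩, h1, h2⟩
          simp [this]
        · have : i ∈ U b (-1) g := Finset.mem_filter.2 ⟨hiR, fun r hr h =>
            h2 (mem_Cg.2 ⟨r, hr, by rw [h]; ring⟩)⟩
          have h3 : b (g i) ∈ (U b (-1) g).image fun i => b (g i) :=
            Finset.mem_image.2 ⟨i, this, rfl⟩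
          exact Finset.mem_union_left _ (Finset.mem_union_right _ h3)
      · have : i ∈ U b (k : ZMod n) g := Finset.mem_filter.2 ⟨hiR, fun r hr h =>
            h1 (mem_Cg.2 ⟨r, hr, h⟩)⟩
        have h3 : b (g i) ∈ (U b (k : ZMod n) g).image fun i => b (g i) :=
          Finset.mem_image.2 ⟨i, this, rfl⟩
        exact Finset.mem_union_left _ (Finset.mem_union_left _ (Finset.mem_union_right _ h3))
  have h0 := Finset.card_le_card hsub
  have h1 := Finset.card_union_le ((Lk b g ∪ (U b (k : ZMod n) g).image fun i => b (g i)) ∪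
      (U b (-1) g).image fun i => b (g i)) {b z}
  have h2 := Finset.card_union_le (Lk b g ∪ (U b (k : ZMod n) g).image fun i => b (g i))
      ((U b (-1) g).image fun i => b (g i))
  have h3 := Finset.card_union_le (Lk b g) ((U b (k : ZMod n) g).image fun i => b (g i))
  have h4 := Finset.card_image_le (s := U b (k : ZMod n) g) (f := fun i => b (g i))
  have h5 := Finset.card_image_le (s := U b (-1) g) (f := fun i => b (g i))
  rw [Finset.card_singleton] at h1
  omega

theorem val_eq_or {n : ℕ} [NeZero n] {a c k : ℕ} (ha : a < n) (hc : c < n + k) (hk : k < n)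
    (h : (a : ZMod n) = (c : ZMod n)) : a = c ∨ a + n = c := by
  rw [ZMod.natCast_eq_natCast_iff', Nat.mod_eq_of_lt ha] at h
  by_cases h1 : c < n
  · rw [Nat.mod_eq_of_lt h1] at h
    exact Or.inl h
  · right
    have h2 : c % n = c - n := by
      rw [Nat.mod_eq_sub_mod (by omega), Nat.mod_eq_of_lt (by omega)]
    omega

/-- every token fits at many rows -/
theorem card_Ft [NeZero n] (hn : 2 * (k + 1) ≤ n) {b : Fin (k + 1) → ZMod n} {z : Fin (k + 1)}
    {g : Equiv.Perm (Fin (k + 1))} (hg : g ∈ Om b z) (x : Fin (k + 1)) :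
    (Lk b g).card ≤ (Ft b g x).card + (Nr b z).card + 1 := by
  classical
  have hkn : k < n := by omega
  obtain ⟨hgz, hinj⟩ := mem_Om.1 hg
  set W : Finset (ZMod n) := (Rw k).image fun j : Fin (k + 1) => b x + ((j : ℕ) : ZMod n) with hW
  have hinjW : Set.InjOn (fun j : Fin (k + 1) => b x + ((j : ℕ) : ZMod n)) (Rw k) :=
    fun j _ j' _ h => row_inj hkn (add_left_cancel h)
  have hWc : W.card = k := by
    rw [hW, Finset.card_image_of_injOn hinjW, card_Rw]
  have hFt : (Ft b g x).card = (W \ Cg b g).card := by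
    have h1 : W \ Cg b g = (Ft b g x).image fun j : Fin (k + 1) => b x + ((j : ℕ) : ZMod n) := by
      ext c
      simp only [hW, Finset.mem_sdiff, Finset.mem_image, mem_Ft]
      constructor
      · rintro ⟨⟨j, hj, rfl⟩, h⟩
        exact ⟨j, ⟨hj, h⟩, rfl⟩
      · rintro ⟨j, ⟨hj, h⟩, rfl⟩
        exact ⟨⟨j, hj, rfl⟩, h⟩
    rw [h1, Finset.card_image_of_injOn]
    exact hinjW.mono (fun j hj => (mem_Ft.1 hj).1)
  have hsd : (W \ Cg b g).card = (Cg b g \ W).card :=
    Finset.card_sdiff_comm (hWc.trans (card_Cg hg).symm)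
  -- excluded labels
  set E : Finset (ZMod n) := (Lk b g).filter fun y =>
    (y - b z).val ≤ k ∨ n - k - 1 ≤ (y - b z).val with hE
  have hEc : E.card ≤ (Nr b z).card + 1 := by
    have hsub : E ⊆ insert (b z - ((k : ZMod n) + 1)) ((Nr b z).image b) := by
      intro y hy
      obtain ⟨hy1, hy2⟩ := Finset.mem_filter.1 hy
      obtain ⟨hy3, -⟩ := Finset.mem_filter.1 hy1
      obtain ⟨i, hi, rfl⟩ := Finset.mem_image.1 hy3
      have hne : g i ≠ z := by
        intro h
        rw [← hgz] at h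
        exact mem_Rw.1 hi (g.injective h)
      have hv : b (g i) = b z + (((b (g i) - b z).val : ℕ) : ZMod n) := by
        rw [ZMod.natCast_val, ZMod.cast_id]
        ring
      have hlt := ZMod.val_lt (b (g i) - b z)
      rw [Finset.mem_insert]
      rcases hy2 with h | h
      · right
        refine Finset.mem_image.2 ⟨g i, mem_Nr.2 ⟨hne, ((b (g i) - b z).val : ℤ), ?_, ?_⟩, rfl⟩
        · omega
        · rw [Int.cast_natCast]
          exact hv
      · by_cases h' : (b (g i) - b z).val = n - k - 1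
        · left
          rw [hv, h', Nat.cast_sub (by omega), Nat.cast_sub (by omega)]
          simp
          ring
        · right
          refine Finset.mem_image.2 ⟨g i, mem_Nr.2 ⟨hne,
            ((b (g i) - b z).val : ℤ) - (n : ℤ), ?_, ?_⟩, rfl⟩
          · omega
          · push_cast
            rw [ZMod.natCast_self, sub_zero]
            rw [ZMod.natCast_val, ZMod.cast_id]
            ring
    refine (Finset.card_le_card hsub).trans ((Finset.card_insert_le _ _).trans ?_)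
    exact Nat.add_le_add_right Finset.card_image_le 1
  -- the injection
  have hmain : (Lk b g \ E).card ≤ (Cg b g \ W).card := by
    set X := (b x - b z).val with hX
    have hXlt : X < n := ZMod.val_lt _
    have hbx : b x = b z + (X : ZMod n) := by
      rw [hX, ZMod.natCast_val, ZMod.cast_id]
      ring
    have hY : ∀ y : ZMod n, y = b z + (((y - b z).val : ℕ) : ZMod n) := by
      intro y
      rw [ZMod.natCast_val, ZMod.cast_id]
      ring
    have hb : ∀ y ∈ Lk b g \ E, k < (y - b z).val ∧ (y - b z).val < n - k - 1 := by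
      intro y hy
      rw [Finset.mem_sdiff] at hy
      by_contra h
      apply hy.2
      refine Finset.mem_filter.2 ⟨hy.1, ?_⟩
      omega
    refine Finset.card_le_card_of_injOn
      (fun y => if (y - b z).val ≤ X then y - 1 else y + (k : ZMod n)) ?_ ?_
    · intro y hy
      have hy := Finset.mem_coe.1 hy
      obtain ⟨h1, h2⟩ := hb y hy
      have hL := Finset.mem_filter.1 (Finset.mem_sdiff.1 hy).1
      apply Finset.mem_coe.2
      rw [Finset.mem_sdiff]
      have hlt := ZMod.val_lt (y - b z)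
      by_cases hc : (y - b z).val ≤ X
      · simp only [hc, if_true]
        refine ⟨hL.2.2, fun h => ?_⟩
        obtain ⟨j, hj, h⟩ := Finset.mem_image.1 h
        have hjk : (j : ℕ) < k := by
          have := Fin.lt_last_iff_ne_last.2 (mem_Rw.1 hj)
          exact this
        have h3 : (((y - b z).val - 1 : ℕ) : ZMod n) = ((X + j : ℕ) : ZMod n) := by
          rw [Nat.cast_sub (by omega), Nat.cast_add, Nat.cast_one]
          have h4 := hY y
          rw [hbx] at h
          linear_combination -h - h4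
        rcases val_eq_or (by omega) (by omega) hkn h3 with h4 | h4
        · omega
        · omega
      · simp only [hc, if_false]
        refine ⟨hL.2.1, fun h => ?_⟩
        obtain ⟨j, hj, h⟩ := Finset.mem_image.1 h
        have hjk : (j : ℕ) < k := by
          have := Fin.lt_last_iff_ne_last.2 (mem_Rw.1 hj)
          exact this
        have h3 : (((y - b z).val + k : ℕ) : ZMod n) = ((X + j : ℕ) : ZMod n) := by
          rw [Nat.cast_add, Nat.cast_add]
          have h4 := hY y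
          rw [hbx] at h
          linear_combination -h - h4
        rcases val_eq_or (by omega) (by omega) hkn h3 with h4 | h4
        · omega
        · omega
    · intro y hy y' hy' h
      have hy := Finset.mem_coe.1 hy
      have hy' := Finset.mem_coe.1 hy'
      obtain ⟨h1, h2⟩ := hb y hy
      obtain ⟨h1', h2'⟩ := hb y' hy'
      have key : ∀ y ∈ Lk b g \ E, ∀ y' ∈ Lk b g \ E, (y - b z).val ≤ X →
          ¬ (y' - b z).val ≤ X → y - 1 ≠ y' + (k : ZMod n) := by
        intro y hy y' hy' hc hc' h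
        obtain ⟨h1, h2⟩ := hb y hy
        obtain ⟨h1', h2'⟩ := hb y' hy'
        have h3 : (((y - b z).val - 1 : ℕ) : ZMod n) = (((y' - b z).val + k : ℕ) : ZMod n) := by
          rw [Nat.cast_sub (by omega), Nat.cast_add, Nat.cast_one]
          have h4 := hY y
          have h5 := hY y'
          linear_combination h - h4 + h5
        rcases val_eq_or (by omega) (by omega) hkn h3 with h4 | h4
        · omega
        · omega
      by_cases hc : (y - b z).val ≤ X
      · by_cases hc' : (y' - b z).val ≤ X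
        · simp only [hc, hc', if_true] at h
          exact sub_left_injective h
        · simp only [hc, hc', if_true, if_false] at h
          exact absurd h (key y hy y' hy' hc hc')
      · by_cases hc' : (y' - b z).val ≤ X
        · simp only [hc, hc', if_true, if_false] at h
          exact absurd h.symm (key y' hy' y hy hc' hc)
        · simp only [hc, hc', if_false] at h
          exact add_left_injective _ h
  have h1 : (Lk b g).card ≤ (Lk b g \ E).card + E.card := by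
    have h2 : Lk b g ⊆ (Lk b g \ E) ∪ E := by
      intro y hy
      by_cases h : y ∈ E
      · simp [h]
      · simp [h, hy]
    exact (Finset.card_le_card h2).trans (Finset.card_union_le _ _)
  omega



/-- the five token move -/
def mv (i ρ j p : Fin (k + 1)) : Equiv.Perm (Fin (k + 1)) :=
  Equiv.swap (Fin.last k) i * (Equiv.swap ρ j * Equiv.swap ρ p)

/-- the quadruples `(i, ρ, j, p)` of rows for which the move is made -/
structure Good (b : Fin (k + 1) → ZMod n) (z : Fin (k + 1)) (g : Equiv.Perm (Fin (k + 1)))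
    (i ρ j p : Fin (k + 1)) : Prop where
  hi : i ∈ Rw k
  hρ : ρ ∈ Rw k
  hj : j ∈ Rw k
  hp : p ∈ Rw k
  iρ : i ≠ ρ
  ij : i ≠ j
  ip : i ≠ p
  ρj : ρ ≠ j
  ρp : ρ ≠ p
  jp : j ≠ p
  blk : b (g i) + (k : ZMod n) = b (g ρ) + ((ρ : ℕ) : ZMod n)
  fi : b z + ((i : ℕ) : ZMod n) ∉ Cg b g
  fj : b (g ρ) + ((j : ℕ) : ZMod n) ∉ Cg b g
  fp : b (g j) + ((p : ℕ) : ZMod n) ∉ Cg b g
  fρ : b (g p) + ((ρ : ℕ) : ZMod n) ∉ Cg b g
  dij : b z + ((i : ℕ) : ZMod n) ≠ b (g ρ) + ((j : ℕ) : ZMod n)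
  dip : b z + ((i : ℕ) : ZMod n) ≠ b (g j) + ((p : ℕ) : ZMod n)
  diρ : b z + ((i : ℕ) : ZMod n) ≠ b (g p) + ((ρ : ℕ) : ZMod n)
  djp : b (g ρ) + ((j : ℕ) : ZMod n) ≠ b (g j) + ((p : ℕ) : ZMod n)
  djρ : b (g ρ) + ((j : ℕ) : ZMod n) ≠ b (g p) + ((ρ : ℕ) : ZMod n)
  dpρ : b (g j) + ((p : ℕ) : ZMod n) ≠ b (g p) + ((ρ : ℕ) : ZMod n)

theorem good_move {b : Fin (k + 1) → ZMod n} {z : Fin (k + 1)} {g : Equiv.Perm (Fin (k + 1))}
    (hg : g ∈ Om b z) {i ρ j p : Fin (k + 1)} (h : Good b z g i ρ j p) :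
    g * mv i ρ j p ∈ T b (k : ZMod n) := by
  classical
  obtain ⟨hgz, hinj⟩ := mem_Om.1 hg
  have hi := mem_Rw.1 h.hi
  have hρ := mem_Rw.1 h.hρ
  have hj := mem_Rw.1 h.hj
  have hp := mem_Rw.1 h.hp
  set f := colE b (k : ZMod n) (g * mv i ρ j p) with hf
  have f_last : f (Fin.last k) = b (g ρ) + ((ρ : ℕ) : ZMod n) := by
    rw [hf, colE_last, Equiv.Perm.mul_apply, mv, Equiv.Perm.mul_apply, Equiv.Perm.mul_apply,
      Equiv.swap_apply_of_ne_of_ne hρ.symm hp.symm, Equiv.swap_apply_of_ne_of_ne hρ.symm hj.symm,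
      Equiv.swap_apply_left]
    exact h.blk
  have f_i : f i = b z + ((i : ℕ) : ZMod n) := by
    rw [hf, colE_ne _ _ _ hi, Equiv.Perm.mul_apply, mv, Equiv.Perm.mul_apply,
      Equiv.Perm.mul_apply, Equiv.swap_apply_of_ne_of_ne h.iρ h.ip,
      Equiv.swap_apply_of_ne_of_ne h.iρ h.ij, Equiv.swap_apply_right, hgz]
  have f_ρ : f ρ = b (g p) + ((ρ : ℕ) : ZMod n) := by
    rw [hf, colE_ne _ _ _ hρ, Equiv.Perm.mul_apply, mv, Equiv.Perm.mul_apply,
      Equiv.Perm.mul_apply, Equiv.swap_apply_left,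
      Equiv.swap_apply_of_ne_of_ne h.ρp.symm h.jp.symm,
      Equiv.swap_apply_of_ne_of_ne hp h.ip.symm]
  have f_j : f j = b (g ρ) + ((j : ℕ) : ZMod n) := by
    rw [hf, colE_ne _ _ _ hj, Equiv.Perm.mul_apply, mv, Equiv.Perm.mul_apply,
      Equiv.Perm.mul_apply, Equiv.swap_apply_of_ne_of_ne h.ρj.symm h.jp,
      Equiv.swap_apply_right, Equiv.swap_apply_of_ne_of_ne hρ h.iρ.symm]
  have f_p : f p = b (g j) + ((p : ℕ) : ZMod n) := by
    rw [hf, colE_ne _ _ _ hp, Equiv.Perm.mul_apply, mv, Equiv.Perm.mul_apply,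
      Equiv.Perm.mul_apply, Equiv.swap_apply_right, Equiv.swap_apply_left,
      Equiv.swap_apply_of_ne_of_ne hj h.ij.symm]
  have f_o : ∀ r, r ≠ Fin.last k → r ≠ i → r ≠ ρ → r ≠ j → r ≠ p →
      f r = b (g r) + ((r : ℕ) : ZMod n) := by
    intro r h0 h1 h2 h3 h4
    rw [hf, colE_ne _ _ _ h0, Equiv.Perm.mul_apply, mv, Equiv.Perm.mul_apply,
      Equiv.Perm.mul_apply, Equiv.swap_apply_of_ne_of_ne h2 h4,
      Equiv.swap_apply_of_ne_of_ne h2 h3, Equiv.swap_apply_of_ne_of_ne h0 h1]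
  have hS : ∀ r, (r = i ∨ r = ρ ∨ r = j ∨ r = p) → f r ∉ Cg b g := by
    rintro r (rfl | rfl | rfl | rfl)
    · rw [f_i]; exact h.fi
    · rw [f_ρ]; exact h.fρ
    · rw [f_j]; exact h.fj
    · rw [f_p]; exact h.fp
  have hO : ∀ r, ¬ (r = i ∨ r = ρ ∨ r = j ∨ r = p) → ∃ r' ∈ Rw k,
      f r = b (g r') + ((r' : ℕ) : ZMod n) ∧ ((r = Fin.last k ∧ r' = ρ) ∨ r' = r) := by
    intro r hr
    push Not at hr
    by_cases h0 : r = Fin.last k
    · exact ⟨ρ, h.hρ, by rw [h0, f_last], Or.inl ⟨h0, rfl⟩⟩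
    · exact ⟨r, mem_Rw.2 h0, f_o r h0 hr.1 hr.2.1 hr.2.2.1 hr.2.2.2, Or.inr rfl⟩
  rw [mem_T]
  intro r r' hrr
  change f r = f r' at hrr
  by_cases h1 : r = i ∨ r = ρ ∨ r = j ∨ r = p
  · by_cases h2 : r' = i ∨ r' = ρ ∨ r' = j ∨ r' = p
    · rcases h1 with rfl | rfl | rfl | rfl
      · rcases h2 with rfl | rfl | rfl | rfl
        · rfl
        · rw [f_i, f_ρ] at hrr; exact absurd hrr h.diρ
        · rw [f_i, f_j] at hrr; exact absurd hrr h.dij
        · rw [f_i, f_p] at hrr; exact absurd hrr h.dip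
      · rcases h2 with rfl | rfl | rfl | rfl
        · rw [f_i, f_ρ] at hrr; exact absurd hrr.symm h.diρ
        · rfl
        · rw [f_ρ, f_j] at hrr; exact absurd hrr.symm h.djρ
        · rw [f_ρ, f_p] at hrr; exact absurd hrr.symm h.dpρ
      · rcases h2 with rfl | rfl | rfl | rfl
        · rw [f_i, f_j] at hrr; exact absurd hrr.symm h.dij
        · rw [f_ρ, f_j] at hrr; exact absurd hrr h.djρ
        · rfl
        · rw [f_j, f_p] at hrr; exact absurd hrr h.djp
      · rcases h2 with rfl | rfl | rfl | rfl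
        · rw [f_i, f_p] at hrr; exact absurd hrr.symm h.dip
        · rw [f_ρ, f_p] at hrr; exact absurd hrr h.dpρ
        · rw [f_j, f_p] at hrr; exact absurd hrr.symm h.djp
        · rfl
    · obtain ⟨s, hs, hs', -⟩ := hO r' h2
      exact absurd (mem_Cg.2 ⟨s, hs, by rw [hrr, hs']⟩) (hS r h1)
  · by_cases h2 : r' = i ∨ r' = ρ ∨ r' = j ∨ r' = p
    · obtain ⟨s, hs, hs', -⟩ := hO r h1
      exact absurd (mem_Cg.2 ⟨s, hs, by rw [← hrr, hs']⟩) (hS r' h2)
    · obtain ⟨s, hs, hs', hs''⟩ := hO r h1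
      obtain ⟨s', ht, ht', ht''⟩ := hO r' h2
      rw [hs', ht'] at hrr
      have hss := hinj s s' (mem_Rw.1 hs) (mem_Rw.1 ht) hrr
      subst hss
      push Not at h1 h2
      rcases hs'' with ⟨h3, h4⟩ | h3
      · rcases ht'' with ⟨h5, h6⟩ | h5
        · rw [h3, h5]
        · exact absurd (h5.symm.trans h4) h2.2.1
      · rcases ht'' with ⟨h5, h6⟩ | h5
        · exact absurd (h3.symm.trans h6) h1.2.1
        · rw [← h3, ← h5]

open Classical in
/-- the quadruples for which the move is made -/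
noncomputable def Gd (b : Fin (k + 1) → ZMod n) (z : Fin (k + 1)) (g : Equiv.Perm (Fin (k + 1))) :
    Finset ((Fin (k + 1) × Fin (k + 1)) × (Fin (k + 1) × Fin (k + 1))) :=
  Finset.univ.filter fun q => Good b z g q.1.1 q.1.2 q.2.1 q.2.2

theorem sum_Gd (hn : k < n) (b : Fin (k + 1) → ZMod n) (z : Fin (k + 1)) :
    ∑ g ∈ Om b z, (Gd b z g).card ≤ (T b (k : ZMod n)).card * (k * k) := by
  classical
  rw [← Finset.card_sigma]
  have hc : ((T b (k : ZMod n)) ×ˢ ((Rw k) ×ˢ (Rw k))).card = (T b (k : ZMod n)).card * (k * k) := by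
    rw [Finset.card_product, Finset.card_product, card_Rw]
  rw [← hc]
  refine Finset.card_le_card_of_injOn
    (fun x => (x.1 * mv x.2.1.1 x.2.1.2 x.2.2.1 x.2.2.2, x.2.2)) ?_ ?_
  · rintro ⟨g, ⟨i, ρ⟩, j, p⟩ hx
    rw [Finset.mem_coe, Finset.mem_sigma] at hx
    have h := (Finset.mem_filter.1 hx.2).2
    simp only at h hx
    rw [Finset.mem_coe, Finset.mem_product, Finset.mem_product]
    exact ⟨good_move hx.1 h, h.hj, h.hp⟩
  · rintro ⟨g, ⟨i, ρ⟩, j, p⟩ hx ⟨g', ⟨i', ρ'⟩, j', p'⟩ hx' he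
    rw [Finset.mem_coe, Finset.mem_sigma] at hx hx'
    have h := (Finset.mem_filter.1 hx.2).2
    have h' := (Finset.mem_filter.1 hx'.2).2
    simp only [Prod.mk.injEq] at h h' hx hx' he
    obtain ⟨he, rfl, rfl⟩ := he
    have e_i : ∀ g : Equiv.Perm (Fin (k + 1)), ∀ i ρ, g ∈ Om b z → Good b z g i ρ j p →
        (g * mv i ρ j p) i = z := by
      intro g i ρ hg h
      rw [Equiv.Perm.mul_apply, mv, Equiv.Perm.mul_apply,
        Equiv.Perm.mul_apply, Equiv.swap_apply_of_ne_of_ne h.iρ h.ip,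
        Equiv.swap_apply_of_ne_of_ne h.iρ h.ij, Equiv.swap_apply_right, (mem_Om.1 hg).1]
    have e_j : ∀ g : Equiv.Perm (Fin (k + 1)), ∀ i ρ, Good b z g i ρ j p →
        (g * mv i ρ j p) j = g ρ := by
      intro g i ρ h
      rw [Equiv.Perm.mul_apply, mv, Equiv.Perm.mul_apply,
        Equiv.Perm.mul_apply, Equiv.swap_apply_of_ne_of_ne h.ρj.symm h.jp,
        Equiv.swap_apply_right, Equiv.swap_apply_of_ne_of_ne (mem_Rw.1 h.hρ) h.iρ.symm]
    have e_l : ∀ g : Equiv.Perm (Fin (k + 1)), ∀ i ρ, Good b z g i ρ j p →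
        (g * mv i ρ j p) (Fin.last k) = g i := by
      intro g i ρ h
      have hρ := mem_Rw.1 h.hρ
      have hj := mem_Rw.1 h.hj
      have hp := mem_Rw.1 h.hp
      rw [Equiv.Perm.mul_apply, mv, Equiv.Perm.mul_apply, Equiv.Perm.mul_apply,
        Equiv.swap_apply_of_ne_of_ne hρ.symm hp.symm, Equiv.swap_apply_of_ne_of_ne hρ.symm hj.symm,
        Equiv.swap_apply_left]
    have hii : i = i' := by
      have h1 := e_i g i ρ hx.1 h
      have h2 := e_i g' i' ρ' hx'.1 h'
      rw [← he] at h2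
      exact (g * mv i ρ j p).injective (h1.trans h2.symm)
    have hρρ : ρ = ρ' := by
      have h1 := e_j g i ρ h
      have h2 := e_j g' i' ρ' h'
      have h3 := e_l g i ρ h
      have h4 := e_l g' i' ρ' h'
      rw [← he] at h2 h4
      have h5 := h.blk
      have h6 := h'.blk
      rw [← h1, ← h3] at h5
      rw [← h2, ← h4] at h6
      exact row_inj hn (add_left_cancel (h5.symm.trans h6))
    subst hii hρρ
    have hgg : g = g' := mul_right_cancel he
    subst hgg
    rfl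



open Classical in
/-- the rows whose column is `k` above the label of a placed token -/
noncomputable def Bl (b : Fin (k + 1) → ZMod n) (g : Equiv.Perm (Fin (k + 1))) :
    Finset (Fin (k + 1)) :=
  (Rw k).filter fun ρ => ∃ i ∈ Rw k, b (g i) + (k : ZMod n) = b (g ρ) + ((ρ : ℕ) : ZMod n)

theorem card_Bl (b : Fin (k + 1) → ZMod n) (g : Equiv.Perm (Fin (k + 1))) :
    (Lk b g).card ≤ (Bl b g).card := by
  classical
  have h : ∀ y ∈ Lk b g, ∃ ρ ∈ Bl b g, b (g ρ) + ((ρ : ℕ) : ZMod n) = y + (k : ZMod n) := by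
    intro y hy
    obtain ⟨h1, h2, -⟩ := Finset.mem_filter.1 hy
    obtain ⟨i, hi, rfl⟩ := Finset.mem_image.1 h1
    obtain ⟨r, hr, hr'⟩ := mem_Cg.1 h2
    exact ⟨r, Finset.mem_filter.2 ⟨hr, i, hi, hr'.symm⟩, hr'⟩
  choose! f hf using h
  refine Finset.card_le_card_of_injOn f (fun y hy => (hf y hy).1) ?_
  intro y hy y' hy' h
  have h1 := (hf y hy).2
  have h2 := (hf y' hy').2
  rw [h] at h1
  exact add_left_injective _ (h1.symm.trans h2)

theorem card_Gd (hn : k < n) {b : Fin (k + 1) → ZMod n} {z : Fin (k + 1)}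
    {g : Equiv.Perm (Fin (k + 1))} (hg : g ∈ Om b z) {s : ℤ} (hs : 0 ≤ s)
    (hF : ∀ x, s ≤ ((Ft b g x).card : ℤ)) (hB : s ≤ ((Bl b g).card : ℤ)) :
    s * (s ^ 2 + (k : ℤ) * s - (k : ℤ) ^ 2) ≤
      ((Gd b z g).card : ℤ) + (k : ℤ) ^ 2 * (2 * ((Nr b z).card : ℤ) + 7) := by
  classical
  obtain ⟨hgz, hinj⟩ := mem_Om.1 hg
  have hne : ∀ r ∈ Rw k, g r ≠ z := by
    intro r hr h
    rw [← hgz] at h
    exact mem_Rw.1 hr (g.injective h)
  have hBl : ∀ ρ ∈ Bl b g, ∃ i ∈ Rw k, b (g i) + (k : ZMod n) = b (g ρ) + ((ρ : ℕ) : ZMod n) :=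
    fun ρ hρ => (Finset.mem_filter.1 hρ).2
  choose! I hI using hBl
  have hBR : Bl b g ⊆ Rw k := Finset.filter_subset _ _
  have hI_inj : ∀ ρ ∈ Bl b g, ∀ ρ' ∈ Bl b g, I ρ = I ρ' → ρ = ρ' := by
    intro ρ hρ ρ' hρ' h
    have h1 := (hI ρ hρ).2
    have h2 := (hI ρ' hρ').2
    rw [h] at h1
    exact hinj ρ ρ' (mem_Rw.1 (hBR hρ)) (mem_Rw.1 (hBR hρ')) (h1.symm.trans h2)
  have hFR : ∀ x, Ft b g x ⊆ Rw k := fun x j hj => (mem_Ft.1 hj).1
  set Tr : Finset (Σ _ : Fin (k + 1), Σ _ : Fin (k + 1), Fin (k + 1)) :=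
    (Bl b g).sigma fun ρ => (Ft b g (g ρ)).sigma fun j =>
      (Ft b g (g j)).filter fun p => ρ ∈ Ft b g (g p) with hTr
  have hcard : s * (s ^ 2 + (k : ℤ) * s - (k : ℤ) ^ 2) ≤ (Tr.card : ℤ) := by
    have h := tri_count (Rw k) (Bl b g) (fun r => Ft b g (g r)) s hs (fun r _ => hFR _)
      (fun r _ => hF _) hBR hB
    rw [card_Rw] at h
    refine h.trans (le_of_eq ?_)
    rw [hTr, Finset.card_sigma]
    push_cast
    refine Finset.sum_congr rfl fun ρ _ => ?_
    rw [Finset.card_sigma]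
    push_cast
    rfl
  have hx : ∀ x ∈ Tr, x.1 ∈ Bl b g ∧ x.2.1 ∈ Ft b g (g x.1) ∧ x.2.2 ∈ Ft b g (g x.2.1) ∧
      x.1 ∈ Ft b g (g x.2.2) := by
    intro x hx
    rw [hTr, Finset.mem_sigma, Finset.mem_sigma, Finset.mem_filter] at hx
    exact ⟨hx.1, hx.2.1, hx.2.2.1, hx.2.2.2⟩
  have hkk : ((Rw k) ×ˢ (Rw k)).card = k * k := by
    rw [Finset.card_product, card_Rw]
  -- forget the second coordinate
  have f2 : ∀ (P : (Σ _ : Fin (k + 1), Σ _ : Fin (k + 1), Fin (k + 1)) → Prop)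
      [DecidablePred P], (∀ ρ j j' p, P ⟨ρ, j, p⟩ → P ⟨ρ, j', p⟩ → j = j') → (Tr.filter P).card ≤ k * k := by
    intro P _ hP
    rw [← hkk]
    refine Finset.card_le_card_of_injOn (fun x => (x.1, x.2.2)) ?_ ?_
    · intro x hx'
      obtain ⟨h1, h2, h3, h4⟩ := hx x (Finset.mem_filter.1 (Finset.mem_coe.1 hx')).1
      exact Finset.mem_coe.2 (Finset.mem_product.2 ⟨hBR h1, hFR _ h3⟩)
    · rintro ⟨ρ, j, p⟩ h1 ⟨ρ', j', p'⟩ h2 h
      simp only [Prod.mk.injEq] at h
      obtain ⟨rfl, rfl⟩ := h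
      have := hP ρ j j' p (Finset.mem_filter.1 (Finset.mem_coe.1 h1)).2
        (Finset.mem_filter.1 (Finset.mem_coe.1 h2)).2
      rw [this]
  have f3 : ∀ (P : (Σ _ : Fin (k + 1), Σ _ : Fin (k + 1), Fin (k + 1)) → Prop)
      [DecidablePred P], (∀ ρ j p p', P ⟨ρ, j, p⟩ → P ⟨ρ, j, p'⟩ → p = p') → (Tr.filter P).card ≤ k * k := by
    intro P _ hP
    rw [← hkk]
    refine Finset.card_le_card_of_injOn (fun x => (x.1, x.2.1)) ?_ ?_
    · intro x hx'
      obtain ⟨h1, h2, h3, h4⟩ := hx x (Finset.mem_filter.1 (Finset.mem_coe.1 hx')).1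
      exact Finset.mem_coe.2 (Finset.mem_product.2 ⟨hBR h1, hFR _ h2⟩)
    · rintro ⟨ρ, j, p⟩ h1 ⟨ρ', j', p'⟩ h2 h
      simp only [Prod.mk.injEq] at h
      obtain ⟨rfl, rfl⟩ := h
      have := hP ρ j p p' (Finset.mem_filter.1 (Finset.mem_coe.1 h1)).2
        (Finset.mem_filter.1 (Finset.mem_coe.1 h2)).2
      rw [this]
  have f1 : ∀ (P : (Σ _ : Fin (k + 1), Σ _ : Fin (k + 1), Fin (k + 1)) → Prop)
      [DecidablePred P], (∀ ρ ρ' j p, P ⟨ρ, j, p⟩ → P ⟨ρ', j, p⟩ → ρ = ρ') → (Tr.filter P).card ≤ k * k := by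
    intro P _ hP
    rw [← hkk]
    refine Finset.card_le_card_of_injOn (fun x => (x.2.1, x.2.2)) ?_ ?_
    · intro x hx'
      obtain ⟨h1, h2, h3, h4⟩ := hx x (Finset.mem_filter.1 (Finset.mem_coe.1 hx')).1
      exact Finset.mem_coe.2 (Finset.mem_product.2 ⟨hFR _ h2, hFR _ h3⟩)
    · rintro ⟨ρ, j, p⟩ h1 ⟨ρ', j', p'⟩ h2 h
      simp only [Prod.mk.injEq] at h
      obtain ⟨rfl, rfl⟩ := h
      have := hP ρ ρ' j p (Finset.mem_filter.1 (Finset.mem_coe.1 h1)).2
        (Finset.mem_filter.1 (Finset.mem_coe.1 h2)).2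
      rw [this]
  set P1 : (Σ _ : Fin (k + 1), Σ _ : Fin (k + 1), Fin (k + 1)) → Prop :=
    fun x => I x.1 ∈ NF b g z with hP1
  set P2 : (Σ _ : Fin (k + 1), Σ _ : Fin (k + 1), Fin (k + 1)) → Prop :=
    fun x => b z + ((I x.1 : ℕ) : ZMod n) = b (g x.2.2) + ((x.1 : ℕ) : ZMod n) with hP2
  set P3 : (Σ _ : Fin (k + 1), Σ _ : Fin (k + 1), Fin (k + 1)) → Prop :=
    fun x => x.2.1 = I x.1 with hP3
  set P4 : (Σ _ : Fin (k + 1), Σ _ : Fin (k + 1), Fin (k + 1)) → Prop :=
    fun x => x.2.2 = I x.1 with hP4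
  set P5 : (Σ _ : Fin (k + 1), Σ _ : Fin (k + 1), Fin (k + 1)) → Prop :=
    fun x => b z + ((I x.1 : ℕ) : ZMod n) = b (g x.1) + ((x.2.1 : ℕ) : ZMod n) with hP5
  set P6 : (Σ _ : Fin (k + 1), Σ _ : Fin (k + 1), Fin (k + 1)) → Prop :=
    fun x => b z + ((I x.1 : ℕ) : ZMod n) = b (g x.2.1) + ((x.2.2 : ℕ) : ZMod n) with hP6
  set P7 : (Σ _ : Fin (k + 1), Σ _ : Fin (k + 1), Fin (k + 1)) → Prop :=
    fun x => b (g x.1) + ((x.2.1 : ℕ) : ZMod n) = b (g x.2.1) + ((x.2.2 : ℕ) : ZMod n) with hP7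
  set P8 : (Σ _ : Fin (k + 1), Σ _ : Fin (k + 1), Fin (k + 1)) → Prop :=
    fun x => b (g x.1) + ((x.2.1 : ℕ) : ZMod n) = b (g x.2.2) + ((x.1 : ℕ) : ZMod n) with hP8
  set P9 : (Σ _ : Fin (k + 1), Σ _ : Fin (k + 1), Fin (k + 1)) → Prop :=
    fun x => b (g x.2.1) + ((x.2.2 : ℕ) : ZMod n) = b (g x.2.2) + ((x.1 : ℕ) : ZMod n) with hP9
  set PG : (Σ _ : Fin (k + 1), Σ _ : Fin (k + 1), Fin (k + 1)) → Prop :=
    fun x => Good b z g (I x.1) x.1 x.2.1 x.2.2 with hPG
  have c1 : (Tr.filter P1).card ≤ (Nr b z).card * (k * k) := by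
    have h1 : (Tr.filter P1).card ≤ ((NF b g z) ×ˢ ((Rw k) ×ˢ (Rw k))).card := by
      refine Finset.card_le_card_of_injOn (fun x => (I x.1, x.2.1, x.2.2)) ?_ ?_
      · intro x hx'
        obtain ⟨hx1, hx2⟩ := Finset.mem_filter.1 (Finset.mem_coe.1 hx')
        obtain ⟨h1, h2, h3, h4⟩ := hx x hx1
        exact Finset.mem_coe.2 (Finset.mem_product.2 ⟨hx2, Finset.mem_product.2
          ⟨hFR _ h2, hFR _ h3⟩⟩)
      · rintro ⟨ρ, j, p⟩ h1 ⟨ρ', j', p'⟩ h2 h
        simp only [Prod.mk.injEq] at h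
        obtain ⟨h, rfl, rfl⟩ := h
        have := hI_inj ρ (hx _ (Finset.mem_filter.1 (Finset.mem_coe.1 h1)).1).1 ρ'
          (hx _ (Finset.mem_filter.1 (Finset.mem_coe.1 h2)).1).1 h
        rw [this]
    rw [Finset.card_product, hkk] at h1
    exact h1.trans (Nat.mul_le_mul_right _ (card_NF hn b g z))
  have c2 : (Tr.filter P2).card ≤ (Nr b z).card * (k * k) := by
    have h1 : (Tr.filter P2).card ≤ ((Nr b z) ×ˢ ((Rw k) ×ˢ (Rw k))).card := by
      refine Finset.card_le_card_of_injOn (fun x => (g x.2.2, x.1, x.2.1)) ?_ ?_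
      · intro x hx'
        obtain ⟨hx1, hx2⟩ := Finset.mem_filter.1 (Finset.mem_coe.1 hx')
        obtain ⟨h1, h2, h3, h4⟩ := hx x hx1
        refine Finset.mem_coe.2 (Finset.mem_product.2 ⟨mem_Nr.2 ⟨hne _ (hFR _ h3), near_of_eq hx2⟩,
          Finset.mem_product.2 ⟨hBR h1, hFR _ h2⟩⟩)
      · rintro ⟨ρ, j, p⟩ h1 ⟨ρ', j', p'⟩ h2 h
        simp only [Prod.mk.injEq] at h
        obtain ⟨h, rfl, rfl⟩ := h
        have := g.injective h
        rw [this]
    rwa [Finset.card_product, hkk] at h1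
  have c3 : (Tr.filter P3).card ≤ k * k := @f2 P3 _ fun ρ j j' p h h' => by
    simp only [hP3] at h h'
    rw [h, h']
  have c4 : (Tr.filter P4).card ≤ k * k := @f3 P4 _ fun ρ j p p' h h' => by
    simp only [hP4] at h h'
    rw [h, h']
  have c5 : (Tr.filter P5).card ≤ k * k := @f2 P5 _ fun ρ j j' p h h' => by
    simp only [hP5] at h h'
    exact row_inj hn (add_left_cancel (h.symm.trans h'))
  have c6 : (Tr.filter P6).card ≤ k * k := @f3 P6 _ fun ρ j p p' h h' => by
    simp only [hP6] at h h'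
    exact row_inj hn (add_left_cancel (h.symm.trans h'))
  have c7 : (Tr.filter P7).card ≤ k * k := @f3 P7 _ fun ρ j p p' h h' => by
    simp only [hP7] at h h'
    exact row_inj hn (add_left_cancel (h.symm.trans h'))
  have c8 : (Tr.filter P8).card ≤ k * k := @f2 P8 _ fun ρ j j' p h h' => by
    simp only [hP8] at h h'
    exact row_inj hn (add_left_cancel (h.trans h'.symm))
  have c9 : (Tr.filter P9).card ≤ k * k := @f1 P9 _ fun ρ ρ' j p h h' => by
    simp only [hP9] at h h'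
    exact row_inj hn (add_left_cancel (h.symm.trans h'))
  have cG : (Tr.filter PG).card ≤ (Gd b z g).card := by
    refine Finset.card_le_card_of_injOn (fun x => ((I x.1, x.1), (x.2.1, x.2.2))) ?_ ?_
    · intro x hx'
      exact Finset.mem_coe.2 (Finset.mem_filter.2 ⟨Finset.mem_univ _,
        (Finset.mem_filter.1 (Finset.mem_coe.1 hx')).2⟩)
    · rintro ⟨ρ, j, p⟩ h1 ⟨ρ', j', p'⟩ h2 h
      simp only [Prod.mk.injEq] at h
      obtain ⟨⟨-, rfl⟩, rfl, rfl⟩ := h
      rfl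
  have hcov : Tr ⊆ Tr.filter PG ∪ (Tr.filter P1 ∪ (Tr.filter P2 ∪ (Tr.filter P3 ∪ (Tr.filter P4 ∪
      (Tr.filter P5 ∪ (Tr.filter P6 ∪ (Tr.filter P7 ∪ (Tr.filter P8 ∪ Tr.filter P9)))))))) := by
    intro x hxT
    simp only [Finset.mem_union, Finset.mem_filter, hxT, true_and]
    by_contra hcon
    push Not at hcon
    obtain ⟨n0, n1, n2, n3, n4, n5, n6, n7, n8, n9⟩ := hcon
    obtain ⟨h1, h2, h3, h4⟩ := hx x hxT
    obtain ⟨hIR, hIe⟩ := hI x.1 h1
    have h2' := mem_Ft.1 h2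
    have h3' := mem_Ft.1 h3
    have h4' := mem_Ft.1 h4
    have hself : ∀ r ∈ Rw k, b (g r) + ((r : ℕ) : ZMod n) ∈ Cg b g :=
      fun r hr => mem_Cg.2 ⟨r, hr, rfl⟩
    apply n0
    refine ⟨hIR, hBR h1, h2'.1, h3'.1, ?_, fun h => n3 h.symm, fun h => n4 h.symm, ?_, ?_, ?_, hIe, ?_,
      h2'.2, h3'.2, h4'.2, n5, n6, n2, n7, n8, n9⟩
    · intro h
      rw [h] at hIe
      have h5 := add_left_cancel hIe
      have h6 : Fin.last k = x.1 := row_inj hn (by rw [Fin.val_last]; exact h5)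
      exact mem_Rw.1 (hBR h1) h6.symm
    · intro h
      apply h2'.2
      rw [← h]
      exact hself _ (hBR h1)
    · intro h
      apply h4'.2
      rw [← h]
      exact hself _ (hBR h1)
    · intro h
      apply h3'.2
      rw [← h]
      exact hself _ h2'.1
    · intro h
      obtain ⟨r, hr, hr'⟩ := mem_Cg.1 h
      exact n1 (Finset.mem_filter.2 ⟨hIR, r, hr, hne r hr, hr'⟩)
  have u0 := Finset.card_le_card hcov
  have u1 := Finset.card_union_le (Tr.filter PG) (Tr.filter P1 ∪ (Tr.filter P2 ∪ (Tr.filter P3 ∪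
    (Tr.filter P4 ∪ (Tr.filter P5 ∪ (Tr.filter P6 ∪ (Tr.filter P7 ∪ (Tr.filter P8 ∪
    Tr.filter P9))))))))
  have u2 := Finset.card_union_le (Tr.filter P1) (Tr.filter P2 ∪ (Tr.filter P3 ∪
    (Tr.filter P4 ∪ (Tr.filter P5 ∪ (Tr.filter P6 ∪ (Tr.filter P7 ∪ (Tr.filter P8 ∪
    Tr.filter P9)))))))
  have u3 := Finset.card_union_le (Tr.filter P2) (Tr.filter P3 ∪
    (Tr.filter P4 ∪ (Tr.filter P5 ∪ (Tr.filter P6 ∪ (Tr.filter P7 ∪ (Tr.filter P8 ∪
    Tr.filter P9))))))
  have u4 := Finset.card_union_le (Tr.filter P3) (Tr.filter P4 ∪ (Tr.filter P5 ∪ (Tr.filter P6 ∪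
    (Tr.filter P7 ∪ (Tr.filter P8 ∪ Tr.filter P9)))))
  have u5 := Finset.card_union_le (Tr.filter P4) (Tr.filter P5 ∪ (Tr.filter P6 ∪
    (Tr.filter P7 ∪ (Tr.filter P8 ∪ Tr.filter P9))))
  have u6 := Finset.card_union_le (Tr.filter P5) (Tr.filter P6 ∪
    (Tr.filter P7 ∪ (Tr.filter P8 ∪ Tr.filter P9)))
  have u7 := Finset.card_union_le (Tr.filter P6) (Tr.filter P7 ∪ (Tr.filter P8 ∪ Tr.filter P9))
  have u8 := Finset.card_union_le (Tr.filter P7) (Tr.filter P8 ∪ Tr.filter P9)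
  have u9 := Finset.card_union_le (Tr.filter P8) (Tr.filter P9)
  have hfin : Tr.card ≤ (Gd b z g).card + (2 * ((Nr b z).card * (k * k)) + 7 * (k * k)) := by
    omega
  have hfin' : (Tr.card : ℤ) ≤ ((Gd b z g).card : ℤ) +
      (2 * (((Nr b z).card : ℤ) * ((k : ℤ) * k)) + 7 * ((k : ℤ) * k)) := by
    exact_mod_cast hfin
  nlinarith

/-- no token within distance `k` after `z` -/
theorem case_free {b : Fin (k + 1) → ZMod n} {z : Fin (k + 1)}
    (hz : ∀ w, ∀ d : ℕ, 1 ≤ d → d ≤ k → b w ≠ b z + (d : ZMod n)) :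
    (Om b z).card ≤ Phi n (k + 1) b := by
  classical
  rw [← T_top]
  apply Finset.card_le_card
  intro g hg
  obtain ⟨hgz, hinj⟩ := mem_Om.1 hg
  rw [mem_T]
  have key : ∀ r, r ≠ Fin.last k → colE b (k : ZMod n) g r ≠ colE b (k : ZMod n) g (Fin.last k) := by
    intro r hr h
    rw [colE_last, colE_ne _ _ _ hr, hgz] at h
    have h1 : (r : ℕ) < k := by
      have := Fin.lt_last_iff_ne_last.2 hr
      exact this
    apply hz (g r) (k - r) (by omega) (by omega)
    rw [Nat.cast_sub h1.le, ← add_sub_assoc, ← h, add_sub_cancel_right]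
  intro r r' h
  by_cases hr : r = Fin.last k
  · by_cases hr' : r' = Fin.last k
    · rw [hr, hr']
    · subst hr
      exact absurd h.symm (key r' hr')
  · by_cases hr' : r' = Fin.last k
    · subst hr'
      exact absurd h (key r hr)
    · rw [colE_ne _ _ _ hr, colE_ne _ _ _ hr'] at h
      exact hinj r r' hr hr' h

open Classical in
/-- the tokens with label in the window `[x, x + W)` -/
noncomputable def Wn (b : Fin (k + 1) → ZMod n) (x : ZMod n) (W : ℕ) : Finset (Fin (k + 1)) :=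
  Finset.univ.filter fun t => ∃ j : ℕ, j < W ∧ b t = x + (j : ZMod n)

theorem mem_Wn {b : Fin (k + 1) → ZMod n} {x : ZMod n} {W : ℕ} {t : Fin (k + 1)} :
    t ∈ Wn b x W ↔ ∃ j : ℕ, j < W ∧ b t = x + (j : ZMod n) := by
  simp [Wn]

theorem window_inj {q W : ℕ} (hq : q * W ≤ n) {x : ZMod n} {i i' j j' : ℕ} (hi : i < q)
    (hi' : i' < q) (hj : j < W) (hj' : j' < W)
    (h : x + ((i * W : ℕ) : ZMod n) + (j : ZMod n) = x + ((i' * W : ℕ) : ZMod n) + (j' : ZMod n)) :
    i = i' := by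
  have h1 : ((i * W + j : ℕ) : ZMod n) = ((i' * W + j' : ℕ) : ZMod n) := by
    push_cast
    push_cast at h
    linear_combination h
  have hb : ∀ {i j : ℕ}, i < q → j < W → i * W + j < n := by
    intro i j hi hj
    have h2 : (i + 1) * W ≤ q * W := Nat.mul_le_mul_right _ hi
    rw [add_mul, one_mul] at h2
    omega
  rw [ZMod.natCast_eq_natCast_iff', Nat.mod_eq_of_lt (hb hi hj), Nat.mod_eq_of_lt (hb hi' hj')]
    at h1
  have hd : ∀ {i j : ℕ}, j < W → (i * W + j) / W = i := by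
    intro i j hj
    rw [Nat.add_comm, Nat.add_mul_div_right _ _ (by omega), Nat.div_eq_of_lt hj, zero_add]
  have h5 := hd (i := i) hj
  rw [h1, hd (i := i') hj'] at h5
  exact h5.symm

theorem sum_Wn {q W : ℕ} (hq : q * W ≤ n) (b : Fin (k + 1) → ZMod n) (x : ZMod n)
    (S : Finset (Fin (k + 1))) :
    ∑ i ∈ Finset.range q, (S ∩ Wn b (x + ((i * W : ℕ) : ZMod n)) W).card ≤ S.card := by
  classical
  rw [← Finset.card_biUnion]
  · apply Finset.card_le_card
    intro t ht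
    obtain ⟨i, -, ht⟩ := Finset.mem_biUnion.1 ht
    exact (Finset.mem_inter.1 ht).1
  · intro i hi i' hi' hne
    rw [Function.onFun, Finset.disjoint_left]
    intro t ht ht'
    obtain ⟨j, hj, h⟩ := mem_Wn.1 (Finset.mem_inter.1 ht).2
    obtain ⟨j', hj', h'⟩ := mem_Wn.1 (Finset.mem_inter.1 ht').2
    exact hne (window_inj hq (Finset.mem_range.1 (Finset.mem_coe.1 hi))
      (Finset.mem_range.1 (Finset.mem_coe.1 hi')) hj hj' (h.symm.trans h'))

theorem poor {q W : ℕ} (hq0 : 0 < q) (hq : q * W ≤ n) (b : Fin (k + 1) → ZMod n) (x : ZMod n) :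
    ∃ i < q, q * (Wn b (x + ((i * W : ℕ) : ZMod n)) W).card ≤ k + 1 := by
  classical
  by_contra! h
  have h1 := sum_Wn hq b x Finset.univ
  rw [Finset.card_univ, Fintype.card_fin] at h1
  have h2 : ∑ _i ∈ Finset.range q, (k + 1) <
      ∑ i ∈ Finset.range q, q * (Wn b (x + ((i * W : ℕ) : ZMod n)) W).card := by
    apply Finset.sum_lt_sum_of_nonempty
    · exact ⟨0, Finset.mem_range.2 hq0⟩
    · intro i hi
      exact h i (Finset.mem_range.1 hi)
  rw [Finset.sum_const, Finset.card_range, smul_eq_mul, ← Finset.mul_sum] at h2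
  have h3 := Nat.lt_of_mul_lt_mul_left h2
  simp only [Finset.univ_inter] at h1
  omega


/-- if every token has a token within distance `k` after it then so has every point -/
theorem window_nonempty [NeZero n] {b : Fin (k + 1) → ZMod n}
    (hb : ∀ z, ∃ w, ∃ d : ℕ, 1 ≤ d ∧ d ≤ k ∧ b w = b z + (d : ZMod n)) (p : ZMod n) :
    ∃ w, ∃ j : ℕ, 1 ≤ j ∧ j ≤ k ∧ b w = p + (j : ZMod n) := by
  classical
  obtain ⟨w, -, hw⟩ := Finset.exists_min_image (Finset.univ : Finset (Fin (k + 1)))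
    (fun w => (p - b w).val) ⟨0, Finset.mem_univ _⟩
  obtain ⟨w', d, hd1, hdk, hw'⟩ := hb w
  have h1 := hw w' (Finset.mem_univ _)
  by_cases hlt : (p - b w).val < d
  · refine ⟨w', d - (p - b w).val, by omega, by omega, ?_⟩
    rw [Nat.cast_sub hlt.le, ZMod.natCast_val, ZMod.cast_id, hw']
    ring
  · exfalso
    have h2 : p - b w' = (((p - b w).val - d : ℕ) : ZMod n) := by
      rw [Nat.cast_sub (by omega), ZMod.natCast_val, ZMod.cast_id, hw']
      ring
    have h3 : (p - b w').val = (p - b w).val - d := by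
      rw [h2]
      apply ZMod.val_cast_of_lt
      have := ZMod.val_lt (p - b w)
      omega
    omega

/-- a token in a poor region -/
theorem exists_poor [NeZero n] {b : Fin (k + 1) → ZMod n} {L : ℕ} (hL0 : 0 < L)
    (hL : L * (3 * (k + 1)) ≤ n)
    (hb : ∀ z, ∃ w, ∃ d : ℕ, 1 ≤ d ∧ d ≤ k ∧ b w = b z + (d : ZMod n)) :
    ∃ z, L * ((Nr b z).card + 1) ≤ k + 1 := by
  classical
  obtain ⟨i, hi, h⟩ := poor hL0 hL b 0
  set y : ZMod n := 0 + ((i * (3 * (k + 1)) : ℕ) : ZMod n) with hy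
  obtain ⟨z, j, hj1, hjk, hz⟩ := window_nonempty hb (y + (k : ZMod n))
  refine ⟨z, (Nat.mul_le_mul_left L ?_).trans h⟩
  have h1 : z ∉ Nr b z := fun h => (mem_Nr.1 h).1 rfl
  rw [← Finset.card_insert_of_notMem h1]
  apply Finset.card_le_card
  intro t ht
  have hd : Near b z t := by
    rcases Finset.mem_insert.1 ht with rfl | ht
    · exact ⟨0, by simp, by simp⟩
    · exact (mem_Nr.1 ht).2
  obtain ⟨d, hd, h2⟩ := hd
  refine mem_Wn.2 ⟨(k + j + d).toNat, by omega, ?_⟩
  have h3 : (((k + j + d).toNat : ℕ) : ZMod n) = ((k + j + d : ℤ) : ZMod n) := by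
    rw [← Int.cast_natCast, Int.toNat_of_nonneg (by omega)]
  rw [h3, h2, hz]
  push_cast
  ring



theorem arith_main {k t S D L q w : ℕ} (hL : 23 ≤ L) (hw : 2 * q + 13 + w = 2 * L)
    (hwL : (4 * w + 45) * L ^ 2 ≤ w ^ 3 + 2 * w ^ 2 * L) (hD : k + 1 ≤ S + D)
    (hq : L * D ≤ q * (k + 1)) (ht : 1 ≤ t) (hz : L * (t + 1) ≤ k + 1) :
    0 ≤ (S : ℤ) - 5 * t - 8 ∧
    (k : ℤ) ^ 2 * (2 * (t : ℤ) + 9) ≤ ((S : ℤ) - 5 * t - 8) *
      (((S : ℤ) - 5 * t - 8) ^ 2 + (k : ℤ) * ((S : ℤ) - 5 * t - 8) - (k : ℤ) ^ 2) := by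
  have hL' : (23 : ℤ) ≤ (L : ℤ) := by exact_mod_cast hL
  have hw' : 2 * (q : ℤ) + 13 + (w : ℤ) = 2 * (L : ℤ) := by exact_mod_cast hw
  have hwL' : (4 * (w : ℤ) + 45) * (L : ℤ) ^ 2 ≤ (w : ℤ) ^ 3 + 2 * (w : ℤ) ^ 2 * (L : ℤ) := by
    exact_mod_cast hwL
  have hD' : (k : ℤ) + 1 ≤ (S : ℤ) + (D : ℤ) := by exact_mod_cast hD
  have hq' : (L : ℤ) * (D : ℤ) ≤ (q : ℤ) * ((k : ℤ) + 1) := by exact_mod_cast hq
  have ht' : (1 : ℤ) ≤ (t : ℤ) := by exact_mod_cast ht
  have hz' : (L : ℤ) * ((t : ℤ) + 1) ≤ (k : ℤ) + 1 := by exact_mod_cast hz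
  have hw0 : (0 : ℤ) ≤ (w : ℤ) := Int.natCast_nonneg w
  set K : ℤ := (k : ℤ) with hK
  set l : ℤ := (L : ℤ) with hl
  set v : ℤ := (w : ℤ) with hv
  set s : ℤ := (S : ℤ) - 5 * t - 8 with hs
  have h2L : 2 * l ≤ K + 1 := by nlinarith
  have a1 : v * (K + 1) ≤ 2 * l * s := by
    have e : 2 * l * s = 2 * (l * (S : ℤ)) - 10 * (l * (t : ℤ)) - 16 * l := by
      rw [hs]
      ring
    have e2 : l * (K + 1) ≤ l * (S : ℤ) + l * (D : ℤ) := by nlinarith
    have e3 : v * (K + 1) = 2 * (l * (K + 1)) - 2 * ((q : ℤ) * (K + 1)) - 13 * (K + 1) := by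
      have : v = 2 * l - 2 * (q : ℤ) - 13 := by linarith
      rw [this]
      ring
    rw [e, e3]
    nlinarith
  have hK0 : 0 ≤ K := Int.natCast_nonneg k
  have a1' : v * K ≤ 2 * l * s := by nlinarith
  have hs0 : 0 ≤ s := by
    by_contra h
    push Not at h
    have : 2 * l * s < 0 := by nlinarith
    nlinarith [mul_nonneg hw0 hK0]
  refine ⟨hs0, ?_⟩
  have a2 : 8 * (l * (2 * (t : ℤ) + 9)) ≤ 45 * K := by
    have h1 : l * (2 * (t : ℤ) + 9) = 2 * (l * ((t : ℤ) + 1)) + 7 * l := by ring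
    rw [h1]
    linarith
  have a3 : (v * K) ^ 2 ≤ (2 * l * s) ^ 2 := pow_le_pow_left₀ (mul_nonneg hw0 hK0) a1' 2
  set Q : ℤ := v ^ 2 + 2 * l * v - 4 * l ^ 2 with hQ
  have hvQ : 45 * l ^ 2 ≤ v * Q := by
    rw [hQ]
    nlinarith
  have hv0 : 0 < v := by
    rcases hw0.lt_or_eq with h | h
    · exact h
    · rw [← h] at hvQ
      nlinarith
  have hQ0 : 0 ≤ Q := by
    by_contra h
    push Not at h
    nlinarith
  have a5 : K ^ 2 * Q ≤ 4 * l ^ 2 * (s ^ 2 + K * s - K ^ 2) := by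
    have h1 : 2 * l * (v * K) * K ≤ 2 * l * (2 * l * s) * K := by
      have : 0 ≤ 2 * l := by linarith
      exact mul_le_mul_of_nonneg_right (mul_le_mul_of_nonneg_left a1' this) hK0
    rw [hQ]
    nlinarith
  have a6 : (v * K) * (K ^ 2 * Q) ≤ (2 * l * s) * (4 * l ^ 2 * (s ^ 2 + K * s - K ^ 2)) :=
    mul_le_mul a1' a5 (by positivity) (by nlinarith)
  have a7 : K ^ 2 * l ^ 2 * (8 * (l * (2 * (t : ℤ) + 9))) ≤ K ^ 2 * l ^ 2 * (45 * K) :=
    mul_le_mul_of_nonneg_left a2 (by positivity)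
  have a8 : K ^ 3 * (45 * l ^ 2) ≤ K ^ 3 * (v * Q) :=
    mul_le_mul_of_nonneg_left hvQ (by positivity)
  have a9 : (8 * l ^ 3) * (K ^ 2 * (2 * (t : ℤ) + 9)) ≤
      (8 * l ^ 3) * (s * (s ^ 2 + K * s - K ^ 2)) := by
    nlinarith
  exact le_of_mul_le_mul_left a9 (by positivity)


/-- the class of a token in a poor region -/
theorem class_le [NeZero n] (hn : 2 * (k + 1) ≤ n) {b : Fin (k + 1) → ZMod n} {D L q w : ℕ}
    (hL : 23 ≤ L) (hw : 2 * q + 13 + w = 2 * L)
    (hwL : (4 * w + 45) * L ^ 2 ≤ w ^ 3 + 2 * w ^ 2 * L)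
    (hD : k + 1 ≤ (Finset.univ.image b).card + D) (hq : L * D ≤ q * (k + 1)) {z : Fin (k + 1)}
    (hz1 : 1 ≤ (Nr b z).card) (hz : L * ((Nr b z).card + 1) ≤ k + 1) :
    (Om b z).card ≤ Phi n (k + 1) b := by
  classical
  have hkn : k < n := by omega
  set F := Phi n (k + 1) b with hF
  have hFt : (T b (k : ZMod n)).card = F := T_top b
  have hFb : (T b (-1)).card = F := T_bot b
  set t := (Nr b z).card with ht
  set O1 := (Om b z).filter fun g => 2 * t + 4 ≤ (U b (k : ZMod n) g).card with hO1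
  set O2 := (Om b z).filter fun g => 2 * t + 4 ≤ (U b (-1) g).card with hO2
  set O3 := (Om b z).filter fun g => (U b (k : ZMod n) g).card ≤ 2 * t + 3 ∧
    (U b (-1) g).card ≤ 2 * t + 3 with hO3
  have hcov : Om b z ⊆ O1 ∪ (O2 ∪ O3) := by
    intro g hg
    simp only [hO1, hO2, hO3, Finset.mem_union, Finset.mem_filter, hg, true_and]
    omega
  have hend : ∀ e : ZMod n, IsEnd n k e → (T b e).card = F →
      4 * ((Om b z).filter fun g => 2 * t + 4 ≤ (U b e g).card).card ≤ F := by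
    intro e he heF
    have h1 : ∑ _g ∈ (Om b z).filter (fun g => 2 * t + 4 ≤ (U b e g).card), 4 ≤
        ∑ g ∈ (Om b z).filter (fun g => 2 * t + 4 ≤ (U b e g).card), (Mv b e g).card := by
      refine Finset.sum_le_sum fun g hg => ?_
      obtain ⟨hg1, hg2⟩ := Finset.mem_filter.1 hg
      have := U_le_Mv hkn he hg1
      omega
    have h2 : ∑ g ∈ (Om b z).filter (fun g => 2 * t + 4 ≤ (U b e g).card), (Mv b e g).card ≤
        ∑ g ∈ Om b z, (Mv b e g).card :=
      Finset.sum_le_sum_of_subset (Finset.filter_subset _ _)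
    have h3 := sum_Mv b e z
    rw [Finset.sum_const, smul_eq_mul] at h1
    omega
  have c1 : 4 * O1.card ≤ F := hend _ (isEnd_top hkn) hFt
  have c2 : 4 * O2.card ≤ F := hend _ (isEnd_bot hkn) hFb
  have c3 : 2 * O3.card ≤ F := by
    have h1 : ∀ g ∈ O3, 2 * (k * k) ≤ (Gd b z g).card := by
      intro g hg
      obtain ⟨hg1, hg2, hg3⟩ := Finset.mem_filter.1 hg
      have hLk := card_Lk hg1
      have hB := card_Bl b g
      have hFx := fun x => card_Ft hn hg1 x
      set S := (Finset.univ.image b).card with hS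
      have hSm : S ≤ k + 1 := by
        have h1 := Finset.card_image_le (s := (Finset.univ : Finset (Fin (k + 1)))) (f := b)
        rwa [Finset.card_univ, Fintype.card_fin] at h1
      obtain ⟨hs0, hfin⟩ := arith_main (k := k) (t := t) hL hw hwL hD hq hz1 hz
      have key := card_Gd hkn hg1 hs0 (fun x => by have := hFx x; omega) (by omega)
      have hfin : 2 * ((k : ℤ) * k) ≤ ((Gd b z g).card : ℤ) := by
        nlinarith
      exact_mod_cast hfin
    have h2 : ∑ g ∈ O3, 2 * (k * k) ≤ ∑ g ∈ O3, (Gd b z g).card := Finset.sum_le_sum h1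
    have h3 : ∑ g ∈ O3, (Gd b z g).card ≤ ∑ g ∈ Om b z, (Gd b z g).card :=
      Finset.sum_le_sum_of_subset (Finset.filter_subset _ _)
    have h4 := sum_Gd hkn b z
    rw [hFt] at h4
    rw [Finset.sum_const, smul_eq_mul] at h2
    have h5 : (2 * O3.card) * (k * k) ≤ F * (k * k) := by
      calc (2 * O3.card) * (k * k) = O3.card * (2 * (k * k)) := by ring
        _ ≤ _ := h2.trans (h3.trans h4)
    have hk0 : 0 < k * k := by
      have h9 : L ≤ L * (t + 1) := Nat.le_mul_of_pos_right _ (by omega)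
      have : 0 < k := by omega
      positivity
    exact Nat.le_of_mul_le_mul_right h5 hk0
  have h1 := Finset.card_le_card hcov
  have h2 := Finset.card_union_le O1 (O2 ∪ O3)
  have h3 := Finset.card_union_le O2 O3
  omega



theorem one_step [NeZero n] {b : Fin (k + 1) → ZMod n} {D L q w : ℕ}
    (hL : 23 ≤ L) (hw : 2 * q + 13 + w = 2 * L)
    (hwL : (4 * w + 45) * L ^ 2 ≤ w ^ 3 + 2 * w ^ 2 * L) (hn : 3 * L * (k + 1) ≤ n)
    (hD : k + 1 ≤ (Finset.univ.image b).card + D) (hq : L * D ≤ q * (k + 1)) :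
    ∃ j : Fin (k + 1), Phi n k (b ∘ j.succAbove) ≤ Phi n (k + 1) b := by
  have hn2 : 2 * (k + 1) ≤ n := by
    refine le_trans (Nat.mul_le_mul_right _ ?_) hn
    omega
  by_cases hc : ∃ z, ∀ w, ∀ d : ℕ, 1 ≤ d → d ≤ k → b w ≠ b z + (d : ZMod n)
  · obtain ⟨z, hz⟩ := hc
    exact ⟨z, (Phi_le_Om b z).trans (case_free hz)⟩
  · push Not at hc
    have hb : ∀ z, ∃ w, ∃ d : ℕ, 1 ≤ d ∧ d ≤ k ∧ b w = b z + (d : ZMod n) := by
      intro z
      obtain ⟨w, d, h1, h2, h3⟩ := hc z
      exact ⟨w, d, h1, h2, h3⟩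
    obtain ⟨z, hz⟩ := exists_poor (L := L) (by omega) (by
      rw [← mul_assoc, mul_comm L 3]
      exact hn) hb
    have hz1 : 1 ≤ (Nr b z).card := by
      obtain ⟨w, d, h1, h2, h3⟩ := hb z
      refine Finset.card_pos.2 ⟨w, mem_Nr.2 ⟨?_, (d : ℤ), by omega, by rw [h3]; simp⟩⟩
      rintro rfl
      have h4 : ((d : ℕ) : ZMod n) = 0 := by
        have h5 : b w + 0 = b w + (d : ZMod n) := by rw [add_zero]; exact h3
        exact (add_left_cancel h5).symm
      rw [ZMod.natCast_eq_zero_iff] at h4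
      have := Nat.le_of_dvd (by omega) h4
      omega
    exact ⟨z, (Phi_le_Om b z).trans (class_le hn2 hL hw hwL hD hq hz1 hz)⟩

end switching

/-- `Nd n k D`: the minimum of `Phi n k a` over all vectors `a` with at least `k - D` distinct
entries. -/
noncomputable def Nd (n k D : ℕ) : ℕ :=
  sInf (Phi n k '' {a | k ≤ (Finset.univ.image a).card + D})

theorem Nd_le (n k D : ℕ) (hn : k + 1 ≤ n)
    (h : ∀ b : Fin (k + 1) → ZMod n, k + 1 ≤ (Finset.univ.image b).card + D → ∃ j : Fin (k + 1),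
      Phi n k (b ∘ j.succAbove) ≤ Phi n (k + 1) b) :
    Nd n k D ≤ Nd n (k + 1) D := by
  classical
  have hne : (Phi n (k + 1) '' {a | k + 1 ≤ (Finset.univ.image a).card + D}).Nonempty := by
    refine ⟨_, fun i => (((i : Fin (k + 1)) : ℕ) : ZMod n), ?_, rfl⟩
    have hinj : Function.Injective fun i : Fin (k + 1) => ((i : ℕ) : ZMod n) := by
      intro r r' hr
      apply Fin.ext
      have h1 := (ZMod.natCast_eq_natCast_iff' _ _ _).1 hr
      rwa [Nat.mod_eq_of_lt (lt_of_lt_of_le r.2 hn),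
        Nat.mod_eq_of_lt (lt_of_lt_of_le r'.2 hn)] at h1
    rw [Set.mem_ofPred_eq, Finset.card_image_of_injective _ hinj, Finset.card_univ,
      Fintype.card_fin]
    omega
  obtain ⟨b, hb, hb'⟩ := Nat.sInf_mem hne
  rw [Set.mem_ofPred_eq] at hb
  obtain ⟨j, hj⟩ := h b hb
  rw [Nd, Nd, ← hb']
  have h2 : k ≤ (Finset.univ.image (b ∘ j.succAbove)).card + D := by
    have hsub : Finset.univ.image b ⊆ insert (b j) (Finset.univ.image (b ∘ j.succAbove)) := by
      intro y hy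
      obtain ⟨t, -, rfl⟩ := Finset.mem_image.1 hy
      rcases Fin.eq_self_or_eq_succAbove j t with h | ⟨i, h⟩
      · rw [h]
        exact Finset.mem_insert_self _ _
      · rw [h]
        exact Finset.mem_insert_of_mem (Finset.mem_image.2 ⟨i, Finset.mem_univ _, rfl⟩)
    have h3 := (Finset.card_le_card hsub).trans (Finset.card_insert_le _ _)
    omega
  have h1 : sInf (Phi n k '' {a | k ≤ (Finset.univ.image a).card + D}) ≤
      Phi n k (b ∘ j.succAbove) := Nat.sInf_le ⟨_, h2, rfl⟩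
  exact h1.trans hj

/-- From every vector of `k + 1` entries of `ZMod n` with at least `k + 1 - D` distinct values one
entry can be removed without increasing the count, if `D ≤ (k + 1) / 3` and `n ≥ 648 (k + 1)`,
or if `D = 0` and `n ≥ 78 (k + 1)`. -/
theorem result : ∀ n k D : ℕ, 0 < k →
    ((3 * D ≤ k + 1 ∧ 648 * (k + 1) ≤ n) ∨ (D = 0 ∧ 78 * (k + 1) ≤ n)) →
    (∀ b : Fin (k + 1) → ZMod n, k + 1 ≤ (Finset.univ.image b).card + D → ∃ j : Fin (k + 1),
      Phi n k (b ∘ j.succAbove) ≤ Phi n (k + 1) b) ∧ Nd n k D ≤ Nd n (k + 1) D := by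
  intro n k D hk hn
  have hn0 : k + 1 ≤ n := by
    rcases hn with h | h
    · omega
    · omega
  have : NeZero n := ⟨by omega⟩
  have h : ∀ b : Fin (k + 1) → ZMod n, k + 1 ≤ (Finset.univ.image b).card + D →
      ∃ j : Fin (k + 1), Phi n k (b ∘ j.succAbove) ≤ Phi n (k + 1) b := by
    intro b hb
    rcases hn with ⟨h1, h2⟩ | ⟨h1, h2⟩
    · exact one_step (L := 216) (q := 72) (w := 275) (by norm_num) (by norm_num) (by norm_num)
        (by omega) hb (by omega)
    · exact one_step (L := 26) (q := 0) (w := 39) (by norm_num) (by norm_num) (by norm_num)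
        (by omega) hb (by omega)
  exact ⟨h, Nd_le n k D hn0 h⟩

end Pool.Agent.Lib.MP_2baa92_co.MostlyDistinct
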